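import Pool.Agent.T2H98.EP.Stm

/-!
# Project EP, package CV: uniform convergence of the truncated binomial Euler products
-/

set_option autoImplicit false

open MeasureTheory Filter Topology Finset

namespace Pool.Agent.T2H98.EP

open Pool.Agent.T2H98.RT (P tw ph D QS quads S_MUL S_OR S_VAR1 S_AE)
open Pool.Agent.H306R2 (lc dv aF)

namespace CV

lemma choose_eq_lc (k : ℝ) (m : ℕ) : Ring.choose ((k : ℂ) + m - 1) m = (lc k m : ℂ) := by
  have h1 : Ring.multichoose (k : ℂ) m = Ring.choose ((k : ℂ) + m - 1) m := Ring.multichoose_eq _ _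
  rw [← h1]
  have h2 := Ring.factorial_nsmul_multichoose_eq_ascPochhammer (k : ℂ) m
  rw [Polynomial.ascPochhammer_smeval_eq_eval] at h2
  have h3 : ∀ n : ℕ, (ascPochhammer ℂ n).eval (k : ℂ) = (n.factorial : ℂ) * (lc k n : ℂ) := by
    intro n
    induction n with
    | zero => simp [lc]
    | succ n ih =>
      rw [ascPochhammer_succ_eval, ih]
      unfold lc
      rw [Finset.prod_range_succ, Nat.factorial_succ]
      push_cast
      have h4 : (n : ℂ) + 1 ≠ 0 := by exact_mod_cast Nat.succ_ne_zero n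
      field_simp
  rw [h3 m, nsmul_eq_mul] at h2
  exact mul_left_cancel₀ (by exact_mod_cast Nat.factorial_ne_zero m) h2

lemma hasSum_B (k : ℝ) (z : ℂ) (hz : ‖z‖ < 1) :
    HasSum (fun m : ℕ => (lc k m : ℂ) * z ^ m) (1 / (1 - z) ^ (k : ℂ)) := by
  have h1 := (Complex.one_div_one_sub_cpow_hasFPowerSeriesOnBall_zero (k : ℂ)).hasSum
    (y := z) (by simpa [Metric.mem_eball, edist_zero_right] using
      (by
        rw [← ofReal_norm]
        exact ENNReal.ofReal_lt_one.2 hz : ‖z‖ₑ < 1))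
  rw [zero_add] at h1
  have h2 : (fun m : ℕ => (lc k m : ℂ) * z ^ m) =
      fun n => (FormalMultilinearSeries.ofScalars ℂ (fun n : ℕ => Ring.choose ((k : ℂ) + n - 1) n) n) fun _ => z := by
    funext m
    rw [FormalMultilinearSeries.ofScalars_apply_eq, choose_eq_lc, smul_eq_mul]
  rw [h2]
  exact h1

lemma prod_diff {ι : Type*} [DecidableEq ι] (s : Finset ι) (a b : ι → ℂ) (M τ : ℝ) (hM : 1 ≤ M) (hτ : 0 ≤ τ)
    (ha : ∀ i ∈ s, ‖a i‖ ≤ M) (hb : ∀ i ∈ s, ‖b i‖ ≤ M) (hab : ∀ i ∈ s, ‖a i - b i‖ ≤ τ) :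
    ‖∏ i ∈ s, a i - ∏ i ∈ s, b i‖ ≤ s.card * M ^ s.card * τ ∧ ‖∏ i ∈ s, a i‖ ≤ M ^ s.card ∧
      ‖∏ i ∈ s, b i‖ ≤ M ^ s.card := by
  induction s using Finset.induction_on with
  | empty => simp
  | insert i s his ih =>
    obtain ⟨h1, h2, h3⟩ := ih (fun j hj => ha j (mem_insert_of_mem hj)) (fun j hj => hb j (mem_insert_of_mem hj))
      (fun j hj => hab j (mem_insert_of_mem hj))
    have ha' := ha i (mem_insert_self i s)
    have hb' := hb i (mem_insert_self i s)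
    have hab' := hab i (mem_insert_self i s)
    rw [prod_insert his, prod_insert his, card_insert_of_notMem his]
    have hM0 : 0 ≤ M := by linarith
    have hMs : 0 ≤ M ^ s.card := pow_nonneg hM0 _
    refine ⟨?_, ?_, ?_⟩
    · have e1 : a i * ∏ j ∈ s, a j - b i * ∏ j ∈ s, b j =
        a i * (∏ j ∈ s, a j - ∏ j ∈ s, b j) + (a i - b i) * ∏ j ∈ s, b j := by ring
      rw [e1]
      have e2 : ‖a i * (∏ j ∈ s, a j - ∏ j ∈ s, b j)‖ ≤ M * (s.card * M ^ s.card * τ) := by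
        rw [norm_mul]; exact mul_le_mul ha' h1 (norm_nonneg _) hM0
      have e3 : ‖(a i - b i) * ∏ j ∈ s, b j‖ ≤ τ * M ^ s.card := by
        rw [norm_mul]; exact mul_le_mul hab' h3 (norm_nonneg _) hτ
      have e4 : τ * M ^ s.card ≤ τ * M ^ (s.card + 1) :=
        mul_le_mul_of_nonneg_left (pow_le_pow_right₀ hM (Nat.le_succ _)) hτ
      calc _ ≤ _ := norm_add_le _ _
        _ ≤ M * (s.card * M ^ s.card * τ) + τ * M ^ (s.card + 1) := add_le_add e2 (e3.trans e4)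
        _ = ((s.card + 1 : ℕ) : ℝ) * M ^ (s.card + 1) * τ := by push_cast; ring
    · rw [norm_mul, pow_succ, mul_comm (M ^ s.card)]
      exact mul_le_mul ha' h2 (norm_nonneg _) hM0
    · rw [norm_mul, pow_succ, mul_comm (M ^ s.card)]
      exact mul_le_mul hb' h3 (norm_nonneg _) hM0

lemma norm_zp (hMUL : S_MUL) (θ : ℕ → ℝ) (t : ℝ) (p : ℕ) (hp : p.Prime) :
    ‖zp θ t p‖ ≤ (2 : ℝ) ^ (-(1 / 2) : ℝ) := by
  unfold zp
  rw [norm_mul, hMUL.2.1 θ p, one_mul, Complex.norm_natCast_cpow_of_pos hp.pos]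
  have h1 : (-(1 / 2 : ℂ) - t * Complex.I).re = -(1 / 2 : ℝ) := by simp
  rw [h1]
  exact Real.rpow_le_rpow_of_nonpos (by norm_num) (by exact_mod_cast hp.two_le) (by norm_num)

lemma r_lt : (2 : ℝ) ^ (-(1 / 2) : ℝ) < 1 :=
  Real.rpow_lt_one_of_one_lt_of_neg (by norm_num) (by norm_num)

end CV

open CV in
theorem pCV (hMUL : S_MUL) : S_CV := by
  intro k y hk ε hε
  set r : ℝ := (2 : ℝ) ^ (-(1 / 2) : ℝ) with hr
  have hr1 : r < 1 := r_lt
  have hr0 : 0 < r := Real.rpow_pos_of_pos (by norm_num) _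
  have hlc : ∀ m, 0 ≤ lc k m := fun m => by
    unfold lc
    exact Finset.prod_nonneg (fun i _ => by positivity)
  have hsr : Summable (fun m : ℕ => lc k m * r ^ m) := by
    have h1 := (hasSum_B k (r : ℂ) (by rw [Complex.norm_real, Real.norm_eq_abs, abs_of_pos hr0]; exact hr1)).summable
    have h2 := h1.norm
    refine h2.congr (fun m => ?_)
    rw [norm_mul, norm_pow, Complex.norm_real, Complex.norm_real, Real.norm_eq_abs, Real.norm_eq_abs,
      abs_of_pos hr0, abs_of_nonneg (hlc m)]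
  set M : ℝ := max 1 (∑' m : ℕ, lc k m * r ^ m) with hM
  have hM1 : 1 ≤ M := le_max_left _ _
  set n : ℕ := (pr y).card with hn
  set Q : ℝ := (n * M ^ n) * (2 * M ^ n) + 1 with hQ
  have hQ0 : 0 < Q := by positivity
  -- the tail
  have htail : Tendsto (fun K : ℕ => ∑' m : ℕ, lc k (m + K) * r ^ (m + K)) atTop (𝓝 0) :=
    tendsto_sum_nat_add (fun m : ℕ => lc k m * r ^ m)
  have hev := (htail.eventually (gt_mem_nhds (show (0 : ℝ) < ε / Q by positivity)))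
  obtain ⟨K₀, hK₀⟩ := eventually_atTop.1 hev
  refine ⟨K₀, fun K hK θ t => ?_⟩
  set τ : ℝ := ∑' m : ℕ, lc k (m + (K + 1)) * r ^ (m + (K + 1)) with hτ
  have hτ0 : 0 ≤ τ := tsum_nonneg (fun m => mul_nonneg (hlc _) (pow_nonneg hr0.le _))
  have hτε : τ < ε / Q := hK₀ (K + 1) (by omega)
  let a : ℕ → ℂ := fun p => ∑ m ∈ range (K + 1), (lc k m : ℂ) * zp θ t p ^ m
  let b : ℕ → ℂ := fun p => 1 / (1 - zp θ t p) ^ (k : ℂ)
  have hpr : ∀ p ∈ pr y, p.Prime := fun p hp => (mem_filter.1 hp).2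
  have hz : ∀ p ∈ pr y, ‖zp θ t p‖ ≤ r := fun p hp => norm_zp hMUL θ t p (hpr p hp)
  have hterm : ∀ p ∈ pr y, ∀ m : ℕ, ‖(lc k m : ℂ) * zp θ t p ^ m‖ ≤ lc k m * r ^ m := by
    intro p hp m
    rw [norm_mul, norm_pow, Complex.norm_real, Real.norm_eq_abs, abs_of_nonneg (hlc m)]
    exact mul_le_mul_of_nonneg_left (pow_le_pow_left₀ (norm_nonneg _) (hz p hp) m) (hlc m)
  have hS : ∀ p ∈ pr y, HasSum (fun m : ℕ => (lc k m : ℂ) * zp θ t p ^ m) (b p) := fun p hp =>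
    hasSum_B k _ (lt_of_le_of_lt (hz p hp) hr1)
  have ha : ∀ p ∈ pr y, ‖a p‖ ≤ M := by
    intro p hp
    calc ‖a p‖ ≤ ∑ m ∈ range (K + 1), ‖(lc k m : ℂ) * zp θ t p ^ m‖ := norm_sum_le _ _
      _ ≤ ∑ m ∈ range (K + 1), lc k m * r ^ m := sum_le_sum (fun m _ => hterm p hp m)
      _ ≤ ∑' m : ℕ, lc k m * r ^ m := hsr.sum_le_tsum _ (fun m _ => mul_nonneg (hlc m) (pow_nonneg hr0.le m))
      _ ≤ M := le_max_right _ _
  have hb : ∀ p ∈ pr y, ‖b p‖ ≤ M := by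
    intro p hp
    rw [← (hS p hp).tsum_eq]
    calc _ ≤ ∑' m : ℕ, lc k m * r ^ m := tsum_of_norm_bounded hsr.hasSum (hterm p hp)
      _ ≤ M := le_max_right _ _
  have hab : ∀ p ∈ pr y, ‖a p - b p‖ ≤ τ := by
    intro p hp
    have h1 := (hS p hp).summable.sum_add_tsum_nat_add (K + 1)
    rw [(hS p hp).tsum_eq] at h1
    have h2 : a p - b p = -∑' m : ℕ, (lc k (m + (K + 1)) : ℂ) * zp θ t p ^ (m + (K + 1)) := by
      rw [← h1]; simp only [a]; ring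
    rw [h2, norm_neg]
    exact tsum_of_norm_bounded ((summable_nat_add_iff (K + 1)).2 hsr).hasSum (fun m => hterm p hp _)
  obtain ⟨h1, h2, h3⟩ := prod_diff (pr y) a b M τ hM1 hτ0 ha hb hab
  have hEU : ‖EU θ y t‖ ^ (2 * k) = ‖∏ p ∈ pr y, b p‖ ^ 2 := by
    unfold EU
    rw [norm_prod, norm_prod, ← Real.finsetProd_rpow _ _ (fun p _ => norm_nonneg _), ← Finset.prod_pow]
    refine Finset.prod_congr rfl (fun p hp => ?_)
    simp only [b]
    rw [norm_inv, norm_div, norm_one, Complex.norm_cpow_real, one_div, Real.inv_rpow (norm_nonneg _),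
      inv_pow, mul_comm 2 k, Real.rpow_mul (norm_nonneg _), Real.rpow_two]
  rw [hEU]
  have h4 : ‖∏ p ∈ pr y, a p‖ ^ 2 - ‖∏ p ∈ pr y, b p‖ ^ 2 =
      (‖∏ p ∈ pr y, a p‖ - ‖∏ p ∈ pr y, b p‖) * (‖∏ p ∈ pr y, a p‖ + ‖∏ p ∈ pr y, b p‖) := by ring
  change |‖∏ p ∈ pr y, a p‖ ^ 2 - ‖∏ p ∈ pr y, b p‖ ^ 2| ≤ ε
  rw [h4, abs_mul, abs_of_nonneg (add_nonneg (norm_nonneg (∏ p ∈ pr y, a p)) (norm_nonneg (∏ p ∈ pr y, b p)))]
  have h5 := abs_norm_sub_norm_le (∏ p ∈ pr y, a p) (∏ p ∈ pr y, b p)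
  have hMn : 0 ≤ M ^ n := by positivity
  calc |‖∏ p ∈ pr y, a p‖ - ‖∏ p ∈ pr y, b p‖| * (‖∏ p ∈ pr y, a p‖ + ‖∏ p ∈ pr y, b p‖)
      ≤ (n * M ^ n * τ) * (2 * M ^ n) := by
        refine mul_le_mul (h5.trans h1) (by linarith) (by positivity) (by positivity)
    _ = ((n * M ^ n) * (2 * M ^ n)) * τ := by ring
    _ ≤ Q * τ := mul_le_mul_of_nonneg_right (by rw [hQ]; linarith) hτ0
    _ ≤ Q * (ε / Q) := mul_le_mul_of_nonneg_left hτε.le hQ0.le
    _ = ε := by field_simp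

end Pool.Agent.T2H98.EP
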