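import Pool.Agent.T2H98.EP.Stm
import Pool.Agent.H306R2.Loc

/-!
# Package SUMC of project EP: the sum of the squares of the coefficients `cK` tends to `AA`
-/

set_option autoImplicit false

open MeasureTheory Filter Topology Finset

namespace Pool.Agent.T2H98.EP

open Pool.Agent.T2H98.RT (P tw ph D QS quads S_MUL S_OR S_VAR1 S_AE)
open Pool.Agent.H306R2 (lc dv aF)

namespace SUMC

/-- the multiplicative function `dv k n ^ 2 / n` -/
noncomputable def gA (k : ℝ) : ArithmeticFunction ℝ := ⟨fun n => dv k n ^ 2 / n, by simp⟩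

lemma gA_apply (k : ℝ) (n : ℕ) : gA k n = dv k n ^ 2 / n := rfl

lemma gA_mult (k : ℝ) : (gA k).IsMultiplicative := by
  refine ⟨?_, fun {m n} h => ?_⟩
  · rw [gA_apply, Pool.Agent.H306R2.dv_one]; simp
  · have h1 := (Pool.Agent.H306R2.dA_mult k).map_mul_of_coprime h
    rw [Pool.Agent.H306R2.dA_apply, Pool.Agent.H306R2.dA_apply, Pool.Agent.H306R2.dA_apply] at h1
    rw [gA_apply, gA_apply, gA_apply, h1]
    push_cast
    rw [mul_pow, mul_div_mul_comm]

lemma gA_pp (k : ℝ) {p : ℕ} (hp : p.Prime) (m : ℕ) :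
    gA k (p ^ m) = lc k m ^ 2 * (1 / (p : ℝ)) ^ m := by
  rw [gA_apply, Pool.Agent.H306R2.dv_prime_pow _ hp]
  push_cast
  rw [one_div, inv_pow, div_eq_mul_inv]

lemma sum_div (k : ℝ) (y K : ℕ) :
    ∑ d ∈ (MK y K).divisors, gA k d
      = ∏ p ∈ pr y, ∑ m ∈ range (K + 1), lc k m ^ 2 * (1 / (p : ℝ)) ^ m := by
  have hm : (gA k * (ArithmeticFunction.zeta : ArithmeticFunction ℝ)).IsMultiplicative :=
    (gA_mult k).mul ArithmeticFunction.isMultiplicative_zeta.natCast
  have h1 : ∀ n : ℕ, (gA k * (ArithmeticFunction.zeta : ArithmeticFunction ℝ)) n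
      = ∑ d ∈ n.divisors, gA k d := fun n => ArithmeticFunction.coe_mul_zeta_apply
  rw [← h1]
  unfold MK
  rw [hm.map_prod (fun p => p ^ K) (pr y)]
  · refine prod_congr rfl fun p hp => ?_
    have hp' : p.Prime := (mem_filter.mp hp).2
    rw [h1, Nat.sum_divisors_prime_pow hp']
    exact sum_congr rfl fun m _ => gA_pp k hp' m
  · intro p hp q hq hpq
    have hp' : p.Prime := (mem_filter.mp (mem_coe.mp hp)).2
    have hq' : q.Prime := (mem_filter.mp (mem_coe.mp hq)).2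
    exact Nat.Coprime.pow _ _ ((Nat.coprime_primes hp' hq').mpr hpq)

lemma MK_pos (y K : ℕ) : 0 < MK y K := by
  unfold MK
  exact prod_pos fun p hp => pow_pos (mem_filter.mp hp).2.pos _

lemma sum_cK (k : ℝ) (y K : ℕ) :
    ∑ m ∈ Icc 1 (MK y K), cK k y K m ^ 2 = ∑ d ∈ (MK y K).divisors, gA k d := by
  have hd : (MK y K).divisors = (Icc 1 (MK y K)).filter (fun m => m ∣ MK y K) := by
    ext m
    simp only [Nat.mem_divisors, mem_filter, mem_Icc]
    constructor
    · rintro ⟨h1, h2⟩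
      exact ⟨⟨Nat.pos_of_dvd_of_pos h1 (MK_pos y K), Nat.le_of_dvd (MK_pos y K) h1⟩, h1⟩
    · rintro ⟨_, h2⟩
      exact ⟨h2, (MK_pos y K).ne'⟩
  rw [hd, sum_filter]
  refine sum_congr rfl fun m hm => ?_
  unfold cK
  split_ifs with h
  · rw [gA_apply, div_pow, Real.sq_sqrt (Nat.cast_nonneg m)]
  · simp

end SUMC

theorem pSUMC : S_SUMC := by
  intro k y hk
  have h : (fun K : ℕ => ∑ m ∈ Icc 1 (MK y K), cK k y K m ^ 2)
      = fun K : ℕ => ∏ p ∈ pr y, ∑ m ∈ range (K + 1), lc k m ^ 2 * (1 / (p : ℝ)) ^ m := by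
    funext K
    rw [SUMC.sum_cK, SUMC.sum_div]
  rw [h]
  unfold AA
  refine tendsto_finset_prod _ fun p hp => ?_
  have hp' : p.Prime := (mem_filter.mp hp).2
  have h2 := Pool.Agent.H306R2.inv_prime hp'
  have hs : Summable (fun m : ℕ => lc k m ^ 2 * (1 / (p : ℝ)) ^ m) := by
    refine Summable.of_nonneg_of_le (fun m => mul_nonneg (sq_nonneg _) (pow_nonneg h2.1.le _))
      (fun m => mul_le_mul_of_nonneg_right (Pool.Agent.H306R2.lc_sq_le hk.le m) (pow_nonneg h2.1.le _))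
      (Pool.Agent.H306R2.lc_summable (by positivity) h2.1 (by linarith [h2.2]))
  exact (tendsto_add_atTop_iff_nat 1).mpr hs.hasSum.tendsto_sum_nat

end Pool.Agent.T2H98.EP
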