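import Pool.Agent.T2H98.EP.Stm
import Pool.Agent.H306R2.Loc

set_option autoImplicit false

open MeasureTheory Filter Topology Finset

namespace Pool.Agent.T2H98.EP

open Pool.Agent.H306R2 (lc dv)

namespace AAL

open Pool.Agent.H306R2 (lc_sq_le lc_pos lc_summable inv_prime lc_nonneg lc_zero)

/-- the local factor -/
noncomputable def E (k : ℝ) (p : ℕ) : ℝ := ∑' m : ℕ, lc k m ^ 2 * (1 / (p : ℝ)) ^ m

/-- the constant -/
noncomputable def C (k : ℝ) : ℝ := ∑' m : ℕ, lc (k ^ 2) (m + 1) * (1 / 2 : ℝ) ^ m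

theorem C_summable {k : ℝ} (hk : 0 < k) :
    Summable (fun m : ℕ => lc (k ^ 2) (m + 1) * (1 / 2 : ℝ) ^ m) := by
  have h := (lc_summable (α := k ^ 2) (by positivity) (x := 1/2) (by norm_num) (by norm_num))
  have h2 := (summable_nat_add_iff 1).mpr h
  have h3 := h2.mul_left 2
  refine h3.congr fun m => ?_
  rw [pow_add]
  ring

theorem C_nonneg {k : ℝ} (_hk : 0 < k) : 0 ≤ C k :=
  tsum_nonneg fun _ => mul_nonneg (lc_nonneg (by positivity) _) (by positivity)

theorem E_summable {k : ℝ} (hk : 0 < k) {p : ℕ} (hp : p.Prime) :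
    Summable (fun m : ℕ => lc k m ^ 2 * (1 / (p : ℝ)) ^ m) := by
  have hp' := inv_prime hp
  refine Summable.of_nonneg_of_le (fun m => by positivity) (fun m => ?_)
    (lc_summable (α := k ^ 2) (by positivity) hp'.1 (by linarith [hp'.2]))
  exact mul_le_mul_of_nonneg_right (lc_sq_le hk.le m) (by positivity)

theorem one_le_E {k : ℝ} (hk : 0 < k) {p : ℕ} (hp : p.Prime) : 1 ≤ E k p := by
  unfold E
  rw [(E_summable hk hp).tsum_eq_zero_add]
  have : 0 ≤ ∑' m : ℕ, lc k (m + 1) ^ 2 * (1 / (p : ℝ)) ^ (m + 1) := tsum_nonneg fun m => by positivity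
  rw [lc_zero]
  norm_num
  simpa using this

theorem E_le {k : ℝ} (hk : 0 < k) {p : ℕ} (hp : p.Prime) : E k p ≤ Real.exp (C k * (1 / (p : ℝ))) := by
  have hp' := inv_prime hp
  have h1 : E k p ≤ 1 + C k * (1 / (p : ℝ)) := by
    unfold E C
    rw [(E_summable hk hp).tsum_eq_zero_add, lc_zero, ← tsum_mul_right]
    have h2 : ∑' m : ℕ, lc k (m + 1) ^ 2 * (1 / (p : ℝ)) ^ (m + 1) ≤
        ∑' m : ℕ, lc (k ^ 2) (m + 1) * (1 / 2 : ℝ) ^ m * (1 / (p : ℝ)) := by
      refine Summable.tsum_le_tsum (fun m => ?_) ((summable_nat_add_iff 1).mpr (E_summable hk hp))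
        ((C_summable hk).mul_right _)
      rw [pow_succ (1 / (p : ℝ)) m, ← mul_assoc]
      refine mul_le_mul_of_nonneg_right ?_ hp'.1.le
      exact mul_le_mul (lc_sq_le hk.le _) (pow_le_pow_left₀ hp'.1.le hp'.2 m) (by positivity)
        (lc_nonneg (by positivity) _)
    have h3 : (1 : ℝ) ^ 2 * (1 / (p : ℝ)) ^ 0 = 1 := by norm_num
    linarith
  refine h1.trans ?_
  have := Real.add_one_le_exp (C k * (1 / (p : ℝ)))
  linarith

theorem pr_prime {y p : ℕ} (hp : p ∈ pr y) : p.Prime := (Finset.mem_filter.1 hp).2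

theorem pr_mono {y z : ℕ} (h : y ≤ z) : pr y ⊆ pr z :=
  Finset.filter_subset_filter _ (Finset.Icc_subset_Icc le_rfl h)

theorem AA_eq (k : ℝ) (y : ℕ) : AA k y = ∏ p ∈ pr y, E k p := rfl

theorem one_le_prod {k : ℝ} (hk : 0 < k) (s : Finset ℕ) (hs : ∀ p ∈ s, p.Prime) : 1 ≤ ∏ p ∈ s, E k p := by
  calc (1 : ℝ) = ∏ p ∈ s, 1 := by simp
    _ ≤ _ := Finset.prod_le_prod (fun _ _ => by norm_num) fun p hp => one_le_E hk (hs p hp)

theorem split (k : ℝ) {y z : ℕ} (h : y ≤ z) : AA k z = (∏ p ∈ pr z \ pr y, E k p) * AA k y := by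
  rw [AA_eq, AA_eq, Finset.prod_sdiff (pr_mono h)]

end AAL

open AAL in
theorem pAAL : S_AAL := by
  intro k hk
  have h1 : ∀ y : ℕ, 1 ≤ AA k y := fun y => one_le_prod hk _ fun p hp => pr_prime hp
  refine ⟨h1, ?_, C k + 1, by have := C_nonneg hk; linarith, ?_⟩
  · intro y z h
    rw [split k h]
    have h2 := one_le_prod hk (pr z \ pr y) fun p hp => pr_prime (Finset.mem_sdiff.1 hp).1
    have h3 := h1 y
    nlinarith
  · intro y z h
    rw [split k h, mul_comm]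
    refine mul_le_mul_of_nonneg_left ?_ (by linarith [h1 y])
    have h2 : ∏ p ∈ pr z \ pr y, E k p ≤ ∏ p ∈ pr z \ pr y, Real.exp (C k * (1 / (p : ℝ))) :=
      Finset.prod_le_prod (fun p hp => by
        linarith [one_le_E hk (pr_prime (Finset.mem_sdiff.1 hp).1)]) fun p hp =>
          E_le hk (pr_prime (Finset.mem_sdiff.1 hp).1)
    refine h2.trans ?_
    rw [← Real.exp_sum]
    apply Real.exp_le_exp.2
    rw [← Finset.mul_sum]
    have h4 : ∑ p ∈ pr z \ pr y, 1 / (p : ℝ) ≤ ∑ n ∈ Ioc y z, 1 / (n : ℝ) := by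
      refine Finset.sum_le_sum_of_subset_of_nonneg ?_ fun _ _ _ => by positivity
      intro p hp
      obtain ⟨hp1, hp2⟩ := Finset.mem_sdiff.1 hp
      have hpz := Finset.mem_Icc.1 (Finset.mem_filter.1 hp1).1
      refine Finset.mem_Ioc.2 ⟨?_, hpz.2⟩
      by_contra hcon
      exact hp2 (Finset.mem_filter.2 ⟨Finset.mem_Icc.2 ⟨hpz.1, by omega⟩, pr_prime hp1⟩)
    have h5 : 0 ≤ ∑ n ∈ Ioc y z, 1 / (n : ℝ) := Finset.sum_nonneg fun _ _ => by positivity
    have h6 := C_nonneg hk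
    have h7 := mul_le_mul_of_nonneg_left h4 h6
    linarith

end Pool.Agent.T2H98.EP
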