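import Pool.Agent.T2H98.EP.Stm

/-! # Package GRE: almost sure convergence along the grid -/

set_option autoImplicit false

open MeasureTheory Filter Topology Finset

namespace Pool.Agent.T2H98.EP

open Pool.Agent.T2H98.RT (P tw ph D QS quads S_MUL S_OR S_VAR1 S_AE)
open Pool.Agent.H306R2 (lc dv aF)

namespace GRE

/-- the logarithm is smaller than a small power -/
lemma log_bound {C η : ℝ} (hC : 0 < C) (hη : 0 < η) {y : ℕ} (hy : 3 ≤ y) :
    C * Real.log y ^ C ≤ C / (η / (16 * C)) ^ C * (y : ℝ) ^ (η / 16) := by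
  have hy1 : (3 : ℝ) ≤ y := by exact_mod_cast hy
  set ε : ℝ := η / (16 * C) with hε
  have hε0 : 0 < ε := by positivity
  have h1 : Real.log y ≤ (y : ℝ) ^ ε / ε := Real.log_le_rpow_div (by linarith) hε0
  have h2 : 0 ≤ Real.log y := Real.log_nonneg (by linarith)
  have h3 : Real.log y ^ C ≤ ((y : ℝ) ^ ε / ε) ^ C := Real.rpow_le_rpow h2 h1 hC.le
  have h4 : ((y : ℝ) ^ ε / ε) ^ C = (y : ℝ) ^ (η / 16) / ε ^ C := by
    rw [Real.div_rpow (by positivity) hε0.le, ← Real.rpow_mul (by linarith)]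
    congr 2
    rw [hε]
    field_simp
  rw [h4] at h3
  calc C * Real.log y ^ C ≤ C * ((y : ℝ) ^ (η / 16) / ε ^ C) := mul_le_mul_of_nonneg_left h3 hC.le
    _ = C / ε ^ C * (y : ℝ) ^ (η / 16) := by ring

/-- the range of `i` -/
lemma range_le {η x : ℝ} (hη : 0 < η) (hη1 : η ≤ 1) (hx : 1 ≤ x) {i : ℕ}
    (hi : (gr η i : ℝ) ≤ x ^ (2 - η)) : (i : ℝ) ≤ 2 * x ^ (1 - η / 4) := by
  have hx0 : 0 < x := by linarith
  have h1 : (i : ℝ) ^ (2 - η / 2) < (gr η i : ℝ) + 1 := by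
    unfold gr
    exact Nat.lt_floor_add_one _
  have h2 : 1 ≤ x ^ (2 - η) := Real.one_le_rpow hx (by linarith)
  have h3 : x ^ (2 - η) ≤ x ^ ((1 - η / 4) * (2 - η / 2)) := by
    refine Real.rpow_le_rpow_of_exponent_le hx ?_
    nlinarith [sq_nonneg η]
  have h4 : (2 : ℝ) ≤ 2 ^ (2 - η / 2) := by
    conv_lhs => rw [← Real.rpow_one 2]
    exact Real.rpow_le_rpow_of_exponent_le (by norm_num) (by linarith)
  have h5 : (2 * x ^ (1 - η / 4)) ^ (2 - η / 2) =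
      2 ^ (2 - η / 2) * x ^ ((1 - η / 4) * (2 - η / 2)) := by
    rw [Real.mul_rpow (by norm_num) (by positivity), ← Real.rpow_mul hx0.le]
  have h6 : (i : ℝ) ^ (2 - η / 2) ≤ (2 * x ^ (1 - η / 4)) ^ (2 - η / 2) := by
    rw [h5]
    have h7 : (0 : ℝ) < x ^ ((1 - η / 4) * (2 - η / 2)) := by positivity
    nlinarith
  exact (Real.rpow_le_rpow_iff (Nat.cast_nonneg i) (by positivity) (by linarith)).1 h6

open Classical in
/-- the finite set of indices -/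
noncomputable def FF (η : ℝ) (a j : ℕ) : Finset ℕ :=
  (Icc 1 ⌊2 * (((j : ℝ) + 1) ^ a) ^ (1 - η / 4)⌋₊).filter
    (fun i => 3 ≤ gr η i ∧ (gr η i : ℝ) ≤ (((j : ℝ) + 1) ^ a) ^ (2 - η))

lemma mem_FF {η : ℝ} {a j i : ℕ} : i ∈ FF η a j ↔
    (1 ≤ i ∧ i ≤ ⌊2 * (((j : ℝ) + 1) ^ a) ^ (1 - η / 4)⌋₊) ∧
      (3 ≤ gr η i ∧ (gr η i : ℝ) ≤ (((j : ℝ) + 1) ^ a) ^ (2 - η)) := by
  unfold FF
  rw [mem_filter, mem_Icc]

/-- the bound of the sum of the variances -/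
lemma bound {C η : ℝ} (hC : 0 < C) (hη : 0 < η) (hη1 : η ≤ 1) {a : ℕ} (ha : 16 / η ≤ a) (j : ℕ) :
    ∑ i ∈ FF η a j, 2 / ((max j 1 : ℕ) : ℝ) ^ a * (C * (gr η i : ℝ) ^ (η / 16)) ≤
      4 * C * 2 ^ a * (1 / ((j : ℝ) + 1) ^ 2) := by
  have hj1 : (1 : ℝ) ≤ (j : ℝ) + 1 := by
    have : (0 : ℝ) ≤ j := Nat.cast_nonneg j
    linarith
  obtain ⟨x, hx⟩ : ∃ x : ℝ, x = ((j : ℝ) + 1) ^ a := ⟨_, rfl⟩
  have hx1 : 1 ≤ x := hx ▸ one_le_pow₀ hj1
  have hx0 : 0 < x := by linarith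
  set m : ℝ := ((max j 1 : ℕ) : ℝ) with hm
  have hm1 : (1 : ℝ) ≤ m := by rw [hm]; exact_mod_cast le_max_right _ _
  have hmj : (j : ℝ) ≤ m := by rw [hm]; exact_mod_cast le_max_left _ _
  have hm2 : ((j : ℝ) + 1) / 2 ≤ m := by linarith
  have hma : x / 2 ^ a ≤ m ^ a := by
    rw [hx, ← div_pow]
    exact pow_le_pow_left₀ (by positivity) hm2 a
  have hma0 : 0 < m ^ a := by positivity
  -- every term
  have hterm : ∀ i ∈ FF η a j,
      2 / m ^ a * (C * (gr η i : ℝ) ^ (η / 16)) ≤ 2 / m ^ a * (C * x ^ (η / 8)) := by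
    intro i hi
    rw [mem_FF, ← hx] at hi
    have h2 : (gr η i : ℝ) ≤ x ^ (2 : ℝ) :=
      hi.2.2.trans (Real.rpow_le_rpow_of_exponent_le hx1 (by linarith))
    have h3 : (gr η i : ℝ) ^ (η / 16) ≤ x ^ (η / 8) := by
      refine (Real.rpow_le_rpow (Nat.cast_nonneg _) h2 (by positivity)).trans (le_of_eq ?_)
      rw [← Real.rpow_mul hx0.le]
      congr 1
      ring
    gcongr
  refine (Finset.sum_le_card_nsmul _ _ _ hterm).trans ?_
  rw [nsmul_eq_mul]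
  have hcard : ((FF η a j).card : ℝ) ≤ 2 * x ^ (1 - η / 4) := by
    have h1 : (FF η a j).card ≤ ⌊2 * x ^ (1 - η / 4)⌋₊ := by
      unfold FF
      refine (Finset.card_filter_le _ _).trans ?_
      rw [Nat.card_Icc, Nat.add_sub_cancel, hx]
    have h2 : (⌊2 * x ^ (1 - η / 4)⌋₊ : ℝ) ≤ 2 * x ^ (1 - η / 4) := Nat.floor_le (by positivity)
    have h3 : ((FF η a j).card : ℝ) ≤ (⌊2 * x ^ (1 - η / 4)⌋₊ : ℝ) := by exact_mod_cast h1
    linarith
  have h1 : ((FF η a j).card : ℝ) * (2 / m ^ a * (C * x ^ (η / 8))) ≤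
      2 * x ^ (1 - η / 4) * (2 / m ^ a * (C * x ^ (η / 8))) :=
    mul_le_mul_of_nonneg_right hcard (by positivity)
  refine h1.trans ?_
  have h2 : 2 * x ^ (1 - η / 4) * (2 / m ^ a * (C * x ^ (η / 8))) =
      4 * C * x ^ (1 - η / 8) / m ^ a := by
    rw [show (1 - η / 8) = (1 - η / 4) + η / 8 by ring, Real.rpow_add hx0]
    ring
  rw [h2]
  have h3 : 4 * C * x ^ (1 - η / 8) / m ^ a ≤ 4 * C * x ^ (1 - η / 8) / (x / 2 ^ a) :=
    div_le_div_of_nonneg_left (by positivity) (by positivity) hma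
  refine h3.trans ?_
  have h4 : 4 * C * x ^ (1 - η / 8) / (x / 2 ^ a) = 4 * C * 2 ^ a * x ^ (-(η / 8)) := by
    rw [show (1 - η / 8) = 1 + (-(η / 8)) by ring, Real.rpow_add hx0, Real.rpow_one]
    field_simp
  rw [h4]
  refine mul_le_mul_of_nonneg_left ?_ (by positivity)
  have h5 : x ^ (-(η / 8)) = ((j : ℝ) + 1) ^ (-(a * (η / 8))) := by
    rw [hx, ← Real.rpow_natCast, ← Real.rpow_mul (by linarith)]
    congr 1
    ring
  have h6 : (1 : ℝ) / ((j : ℝ) + 1) ^ 2 = ((j : ℝ) + 1) ^ (-(2 : ℝ)) := by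
    rw [Real.rpow_neg (by linarith), Real.rpow_two, one_div]
  rw [h5, h6]
  refine Real.rpow_le_rpow_of_exponent_le hj1 ?_
  have h7 : 16 / η * (η / 8) ≤ a * (η / 8) := mul_le_mul_of_nonneg_right ha (by positivity)
  have h8 : 16 / η * (η / 8) = 2 := by field_simp; norm_num
  linarith

end GRE

open GRE

theorem pGRE (hVARL : S_VARL) (hQSE : S_QSE) (hJME : S_JME) (hAE : S_AE) : S_GRE := by
  intro k η hk hη hη1
  obtain ⟨C, hC, hqs⟩ := hQSE k hk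
  obtain ⟨C', hC'⟩ : ∃ C' : ℝ, C' = C / (η / (16 * C)) ^ C := ⟨_, rfl⟩
  have hC'0 : 0 < C' := by rw [hC']; positivity
  set a : ℕ := ⌈16 / η⌉₊ with ha
  have ha8 : 16 / η ≤ a := Nat.le_ceil _
  have ha1 : 1 ≤ a := by
    have h1 : (0 : ℝ) < a := lt_of_lt_of_le (by positivity) ha8
    exact_mod_cast h1
  refine ⟨a, ha1, ?_⟩
  have hm1 : ∀ j : ℕ, (1 : ℝ) ≤ ((max j 1 : ℕ) : ℝ) := fun j => by exact_mod_cast le_max_right _ _
  have ht1 : ∀ j : ℕ, (1 : ℝ) ≤ ((max j 1 : ℕ) : ℝ) ^ a := fun j => one_le_pow₀ (hm1 j)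
  have ht0 : ∀ j : ℕ, (0 : ℝ) < ((max j 1 : ℕ) : ℝ) ^ a := fun j => by linarith [ht1 j]
  have hXc : ∀ j i : ℕ, Continuous (fun θ : ℕ → ℝ =>
      JE θ k (gr η i) (((max j 1 : ℕ) : ℝ) ^ a) - AA k (gr η i)) := fun j i => by
    obtain ⟨B, _, _, _, h3⟩ := hJME k (gr η i) hk
    exact (h3 _ (ht0 j)).1.sub continuous_const
  have hmain := hAE (ℕ → ℝ) P
    (fun j i θ => JE θ k (gr η i) (((max j 1 : ℕ) : ℝ) ^ a) - AA k (gr η i))
    (fun j i => 2 / ((max j 1 : ℕ) : ℝ) ^ a * (C' * (gr η i : ℝ) ^ (η / 16)))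
    (fun j => FF η a j)
    (fun j i => (hXc j i).measurable)
    (fun j i => by
      obtain ⟨B, hB, _, _, h3⟩ := hJME k (gr η i) hk
      refine Integrable.of_bound (C := (B + |AA k (gr η i)|) ^ 2)
        ((hXc j i).pow 2).aestronglyMeasurable ?_
      refine Eventually.of_forall fun θ => ?_
      rw [Real.norm_eq_abs, abs_pow]
      refine pow_le_pow_left₀ (abs_nonneg _) ?_ 2
      refine (abs_sub _ _).trans ?_
      obtain ⟨h1, h2⟩ := (h3 _ (ht0 j)).2 θ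
      rw [abs_of_nonneg h1]
      linarith)
    (fun j i hi => by
      rw [mem_FF] at hi
      refine (hVARL k (gr η i) _ (C * Real.log (gr η i) ^ C) hk (ht0 j)
        (fun K => hqs _ K hi.2.1)).trans ?_
      refine mul_le_mul_of_nonneg_left ?_ (by have := ht0 j; positivity)
      rw [hC']
      exact log_bound hC hη hi.2.1)
    (by
      refine Summable.of_nonneg_of_le (fun j => Finset.sum_nonneg fun i _ => by positivity)
        (fun j => bound hC'0 hη hη1 ha8 j) ?_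
      refine Summable.mul_left _ ?_
      have h1 : Summable (fun n : ℕ => 1 / (n : ℝ) ^ 2) :=
        Real.summable_one_div_nat_pow.2 (by norm_num)
      have h2 := (summable_nat_add_iff 1).2 h1
      refine h2.congr fun n => ?_
      push_cast
      rfl)
  filter_upwards [hmain] with θ hθ ε hε
  filter_upwards [hθ ε hε, eventually_ge_atTop 1] with j hj hj1 i hi hij
  have hmax : max j 1 = j := max_eq_left hj1
  rw [hmax] at hj
  refine hj i ?_
  rw [mem_FF]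
  have hjj : (1 : ℝ) ≤ (j : ℝ) + 1 := by
    have : (0 : ℝ) ≤ j := Nat.cast_nonneg j
    linarith
  have hx1 : (1 : ℝ) ≤ ((j : ℝ) + 1) ^ a := one_le_pow₀ hjj
  refine ⟨⟨?_, Nat.le_floor (range_le hη hη1 hx1 hij)⟩, hi, hij⟩
  by_contra h0
  have h0' : i = 0 := by omega
  subst h0'
  have : gr η 0 = 0 := by
    unfold gr
    rw [Nat.cast_zero, Real.zero_rpow (by linarith), Nat.floor_zero]
  omega

end Pool.Agent.T2H98.EP
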