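import Pool.Agent.T2H98.EP.Stm

/-! Project EP, package INTNE: from the grid to all `y`. -/

set_option autoImplicit false

open MeasureTheory Filter Topology Finset

namespace Pool.Agent.T2H98.EP

open Pool.Agent.T2H98.RT (P tw ph D QS quads S_MUL S_OR S_VAR1 S_AE)
open Pool.Agent.H306R2 (lc dv aF)

namespace INTNE

lemma elem {δ a a' j J' : ℝ} (hδ0 : 0 < δ) (hδ : δ ≤ 1 / 2) (ha : 0 ≤ a)
    (haa : a ≤ a') (haa' : a' ≤ (1 + δ) * a) (hj : |j - a| ≤ δ * a)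
    (h1 : J' ≤ (1 + δ) * j) (h2 : j ≤ (1 + δ) * J') :
    |J' - a'| ≤ 3 * δ * a' := by
  obtain ⟨hj1, hj2⟩ := abs_le.1 hj
  have ha' : 0 ≤ a' := ha.trans haa
  rw [abs_le]
  constructor
  · have h3 : (1 - δ) * a' ≤ (1 + δ) ^ 2 * J' := by
      have e1 : (1 - δ) * a ≤ (1 + δ) * J' := by linarith
      have e2 : (1 + δ) * ((1 - δ) * a) ≤ (1 + δ) * ((1 + δ) * J') :=
        mul_le_mul_of_nonneg_left e1 (by linarith)
      have e3 : (1 - δ) * a' ≤ (1 - δ) * ((1 + δ) * a) :=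
        mul_le_mul_of_nonneg_left haa' (by linarith)
      nlinarith
    by_contra hcon
    push Not at hcon
    have h4 : J' < (1 - 3 * δ) * a' := by linarith
    have h5 : (1 + δ) ^ 2 * J' < (1 + δ) ^ 2 * ((1 - 3 * δ) * a') :=
      mul_lt_mul_of_pos_left h4 (by positivity)
    have h6 : 0 ≤ a' * (5 * δ ^ 2 + 3 * δ ^ 3) := by positivity
    nlinarith
  · have h3 : (1 + δ) * j ≤ (1 + δ) * ((1 + δ) * a) := by
      apply mul_le_mul_of_nonneg_left _ (by linarith)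
      linarith
    have h4 : (1 + δ) * ((1 + δ) * a) ≤ (1 + 3 * δ) * a := by nlinarith
    have h5 : (1 + 3 * δ) * a ≤ (1 + 3 * δ) * a' := mul_le_mul_of_nonneg_left haa (by linarith)
    linarith

/-- comparison of the moments -/
lemma J_le (hJME : S_JME) {θ : ℕ → ℝ} {k : ℝ} (hk : 0 < k) {N M : ℕ} {T δ : ℝ} (hT : 0 < T)
    (h : ∀ t : ℝ, ‖EU θ N t‖ ^ (2 * k) ≤ (1 + δ) * ‖EU θ M t‖ ^ (2 * k)) :
    JE θ k N T ≤ (1 + δ) * JE θ k M T := by
  have hc : ∀ N : ℕ, Continuous (fun t : ℝ => ‖EU θ N t‖ ^ (2 * k)) := fun N => by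
    obtain ⟨B, -, -, hc, -⟩ := hJME k N hk
    exact hc θ
  unfold JE
  have h1 : ∫ t in (0:ℝ)..T, ‖EU θ N t‖ ^ (2 * k) ≤
      ∫ t in (0:ℝ)..T, ((1 + δ) * ‖EU θ M t‖ ^ (2 * k)) := by
    apply intervalIntegral.integral_mono_on hT.le ((hc N).intervalIntegrable _ _)
      (((hc M).const_mul _).intervalIntegrable _ _)
    intro t _
    exact h t
  rw [intervalIntegral.integral_const_mul] at h1
  have h2 := mul_le_mul_of_nonneg_left h1 (show 0 ≤ 1 / T by positivity)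
  refine h2.trans (le_of_eq ?_)
  ring

lemma gr_mono {η : ℝ} (hη1 : η ≤ 1) : Monotone (gr η) := by
  intro i j hij
  unfold gr
  apply Nat.floor_mono
  exact Real.rpow_le_rpow (Nat.cast_nonneg i) (by exact_mod_cast hij) (by linarith)

lemma le_gr {η : ℝ} (hη1 : η ≤ 1) (i : ℕ) : i ≤ gr η i := by
  unfold gr
  apply Nat.le_floor
  rcases Nat.eq_zero_or_pos i with h | h
  · subst h
    simp only [Nat.cast_zero]
    exact Real.rpow_nonneg le_rfl _
  · have h1 : (1 : ℝ) ≤ i := by exact_mod_cast h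
    calc (i : ℝ) = (i : ℝ) ^ (1 : ℝ) := (Real.rpow_one _).symm
      _ ≤ (i : ℝ) ^ (2 - η / 2) := Real.rpow_le_rpow_of_exponent_le h1 (by linarith)

lemma exists_i {η : ℝ} (hη1 : η ≤ 1) {i₁ y : ℕ} (hy : gr η i₁ ≤ y) :
    ∃ i : ℕ, i₁ ≤ i ∧ gr η i ≤ y ∧ y < gr η (i + 1) := by
  classical
  have hex : ∃ i : ℕ, y < gr η (i + 1) := ⟨y, lt_of_lt_of_le (Nat.lt_succ_self y) (le_gr hη1 (y + 1))⟩
  refine ⟨Nat.find hex, ?_, ?_, Nat.find_spec hex⟩
  · by_contra hlt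
    push Not at hlt
    have h1 := Nat.find_spec hex
    have h2 : gr η (Nat.find hex + 1) ≤ gr η i₁ := gr_mono hη1 hlt
    omega
  · rcases Nat.eq_zero_or_pos (Nat.find hex) with h | h
    · have h3 := gr_mono (η := η) hη1 (Nat.zero_le i₁)
      rw [h]
      omega
    · have h4 := Nat.find_min hex (m := Nat.find hex - 1) (by omega)
      rw [Nat.sub_add_cancel h] at h4
      omega

end INTNE

open INTNE

theorem pINTNE (hSTEP : S_STEP) (hAAL : S_AAL) (hJME : S_JME) : S_INTNE := by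
  intro θ k η hk hη hη1 hyp ε hε
  set ε' : ℝ := min ε 1 with hε'
  have hε'0 : 0 < ε' := lt_min hε one_pos
  have hε'1 : ε' ≤ 1 := min_le_right _ _
  have hε'2 : ε' ≤ ε := min_le_left _ _
  set δ : ℝ := ε' / 6 with hδ
  have hδ0 : 0 < δ := by positivity
  have hδ1 : δ ≤ 1 / 2 := by rw [hδ]; linarith
  obtain ⟨hA1, hAm, C, hC, hAC⟩ := hAAL k hk
  -- choose the step size
  set δ' : ℝ := min δ (Real.log (1 + δ) / C) with hδ'
  have hlog : 0 < Real.log (1 + δ) := Real.log_pos (by linarith)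
  have hδ'0 : 0 < δ' := lt_min hδ0 (div_pos hlog hC)
  obtain ⟨i₀, hi₀⟩ := hSTEP k η hk hη hη1 δ' hδ'0
  obtain ⟨T₀, hT₀, hT⟩ := hyp δ hδ0
  refine ⟨gr η (max i₀ 3), T₀, hT₀, ?_⟩
  intro T y hTT hyy hyT
  have hT0 : 0 < T := by linarith
  obtain ⟨i, hi, hiy, hyi⟩ := exists_i hη1 hyy
  have hii₀ : i₀ ≤ i := (le_max_left _ _).trans hi
  have hi3 : 3 ≤ gr η i := ((le_max_right i₀ 3).trans hi).trans (le_gr hη1 i)
  obtain ⟨hst, hsum⟩ := hi₀ i hii₀ y hiy hyi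
  have hiy' : (gr η i : ℝ) ≤ y := by exact_mod_cast hiy
  have hmain := hT T hTT i hi3 (hiy'.trans hyT)
  have hst1 : ∀ t : ℝ, ‖EU θ y t‖ ^ (2 * k) ≤ (1 + δ) * ‖EU θ (gr η i) t‖ ^ (2 * k) := fun t => by
    refine (hst θ t).1.trans ?_
    apply mul_le_mul_of_nonneg_right _ (by positivity)
    have := min_le_left δ (Real.log (1 + δ) / C)
    linarith
  have hst2 : ∀ t : ℝ, ‖EU θ (gr η i) t‖ ^ (2 * k) ≤ (1 + δ) * ‖EU θ y t‖ ^ (2 * k) := fun t => by
    refine (hst θ t).2.trans ?_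
    apply mul_le_mul_of_nonneg_right _ (by positivity)
    have := min_le_left δ (Real.log (1 + δ) / C)
    linarith
  have h1 := J_le hJME hk hT0 hst1
  have h2 := J_le hJME hk hT0 hst2
  have h3 : AA k y ≤ (1 + δ) * AA k (gr η i) := by
    refine (hAC (gr η i) y hiy).trans ?_
    rw [mul_comm]
    apply mul_le_mul_of_nonneg_right _ (zero_le_one.trans (hA1 _))
    have h4 : C * ∑ n ∈ Ioc (gr η i) y, 1 / (n : ℝ) ≤ Real.log (1 + δ) := by
      have h5 : ∑ n ∈ Ioc (gr η i) y, 1 / (n : ℝ) ≤ Real.log (1 + δ) / C :=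
        hsum.trans (min_le_right _ _)
      rw [le_div_iff₀ hC] at h5
      linarith
    calc Real.exp (C * ∑ n ∈ Ioc (gr η i) y, 1 / (n : ℝ)) ≤ Real.exp (Real.log (1 + δ)) :=
          Real.exp_le_exp.2 h4
      _ = 1 + δ := Real.exp_log (by linarith)
  have h6 := elem hδ0 hδ1 (zero_le_one.trans (hA1 _)) (hAm hiy) h3 hmain h1 h2
  have h8 : 0 ≤ AA k y := zero_le_one.trans (hA1 _)
  refine h6.trans ?_
  have h10 : 3 * δ * AA k y = ε' / 2 * AA k y := by rw [hδ]; ring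
  rw [h10]
  have h11 : ε' / 2 * AA k y ≤ ε * AA k y := mul_le_mul_of_nonneg_right (by linarith) h8
  exact h11

end Pool.Agent.T2H98.EP
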