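import Pool.Agent.T2H98.EP.Stm

/-!
# Package INTTE: from the grid `T = j ^ a` to all `T`
-/

set_option autoImplicit false

open MeasureTheory Filter Topology Finset

namespace Pool.Agent.T2H98.EP

namespace INTTE

/-- `T JE(T)` -/
noncomputable def G (θ : ℕ → ℝ) (k : ℝ) (y : ℕ) (T : ℝ) : ℝ := ∫ t in (0:ℝ)..T, ‖EU θ y t‖ ^ (2 * k)

theorem G_mono (hJME : S_JME) (θ : ℕ → ℝ) {k : ℝ} (hk : 0 < k) (y : ℕ) {T₁ T₂ : ℝ} (h0 : 0 ≤ T₁)
    (h : T₁ ≤ T₂) : G θ k y T₁ ≤ G θ k y T₂ := by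
  obtain ⟨B, -, -, hc, -⟩ := hJME k y hk
  unfold G
  apply intervalIntegral.integral_mono_interval le_rfl h0 h
  · apply Filter.Eventually.of_forall
    intro t
    exact Real.rpow_nonneg (norm_nonneg _) _
  · exact (hc θ).intervalIntegrable _ _

theorem J_eq (θ : ℕ → ℝ) (k : ℝ) (y : ℕ) (T : ℝ) : JE θ k y T = 1 / T * G θ k y T := rfl

theorem ratio_lim (a : ℕ) : Tendsto (fun j : ℕ => (((j : ℝ) + 1) ^ a / (j : ℝ) ^ a)) atTop (𝓝 1) := by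
  have h1 : Tendsto (fun j : ℕ => 1 + 1 / (j : ℝ)) atTop (𝓝 (1 + 0)) :=
    tendsto_const_nhds.add tendsto_one_div_atTop_nhds_zero_nat
  have h2 := h1.pow a
  rw [add_zero, one_pow] at h2
  apply h2.congr'
  filter_upwards [eventually_gt_atTop 0] with j hj
  have hj' : (j : ℝ) ≠ 0 := Nat.cast_ne_zero.mpr (by omega)
  rw [← div_pow, add_div, div_self hj']

end INTTE

open INTTE in
theorem pINTTE (hAAL : S_AAL) (hJME : S_JME) : S_INTTE := by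
  intro θ k η a hk ha hη hη1 H ε hε
  obtain ⟨hA1, -, -⟩ := hAAL k hk
  set ε₁ : ℝ := min (ε / 3) 1 with hε₁
  have he0 : 0 < ε₁ := lt_min (by linarith) one_pos
  have he1 : ε₁ ≤ 1 := min_le_right _ _
  have he3 : 3 * ε₁ ≤ ε := by
    have := min_le_left (ε / 3) 1
    linarith
  have hr : ∀ᶠ j : ℕ in atTop, ((j : ℝ) + 1) ^ a / (j : ℝ) ^ a < 1 + ε₁ :=
    (ratio_lim a).eventually_lt_const (by linarith)
  obtain ⟨j₁, hj₁⟩ := eventually_atTop.mp (H ε₁ he0)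
  obtain ⟨j₂, hj₂⟩ := eventually_atTop.mp hr
  set j₀ : ℕ := max (max j₁ j₂) 1 with hj₀
  refine ⟨((j₀ : ℝ) + 1) ^ a, one_le_pow₀ (by
    have : (0 : ℝ) ≤ j₀ := Nat.cast_nonneg _
    linarith), ?_⟩
  intro T hT i hi hiT
  have hT0 : 0 < T := lt_of_lt_of_le (by positivity) hT
  have ha0 : a ≠ 0 := by omega
  set j : ℕ := ⌊T ^ ((a : ℝ)⁻¹)⌋₊ with hj
  have hroot : (T ^ ((a : ℝ)⁻¹)) ^ a = T := Real.rpow_inv_natCast_pow hT0.le ha0
  have hroot0 : 0 ≤ T ^ ((a : ℝ)⁻¹) := Real.rpow_nonneg hT0.le _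
  have hjT : (j : ℝ) ^ a ≤ T := by
    calc (j : ℝ) ^ a ≤ (T ^ ((a : ℝ)⁻¹)) ^ a :=
          pow_le_pow_left₀ (Nat.cast_nonneg _) (Nat.floor_le hroot0) a
      _ = T := hroot
  have hTj : T < ((j : ℝ) + 1) ^ a := by
    calc T = (T ^ ((a : ℝ)⁻¹)) ^ a := hroot.symm
      _ < ((j : ℝ) + 1) ^ a := pow_lt_pow_left₀ (Nat.lt_floor_add_one _) hroot0 ha0
  have hjj : j₀ < j := by
    by_contra hcon
    push Not at hcon
    have h1 : ((j : ℝ) + 1) ^ a ≤ ((j₀ : ℝ) + 1) ^ a := by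
      apply pow_le_pow_left₀ (by positivity)
      have : (j : ℝ) ≤ j₀ := by exact_mod_cast hcon
      linarith
    linarith
  have hj1' : j₁ ≤ j := by
    have h1 : j₁ ≤ j₀ := (le_max_left _ _).trans (le_max_left _ _)
    omega
  have hj2' : j₂ ≤ j := by
    have h1 : j₂ ≤ j₀ := (le_max_right _ _).trans (le_max_left _ _)
    omega
  have hjpos : 0 < j := by omega
  have hjpos' : (0 : ℝ) < j := by exact_mod_cast hjpos
  have hexp : (0 : ℝ) ≤ 2 - η := by linarith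
  have hc1 : (gr η i : ℝ) ≤ (((j : ℝ) + 1) ^ a) ^ (2 - η) :=
    hiT.trans (Real.rpow_le_rpow hT0.le hTj.le hexp)
  have hc2 : (gr η i : ℝ) ≤ ((((j + 1 : ℕ) : ℝ) + 1) ^ a) ^ (2 - η) := by
    refine hc1.trans (Real.rpow_le_rpow (by positivity) ?_ hexp)
    apply pow_le_pow_left₀ (by positivity)
    push_cast
    linarith
  have hb1 := hj₁ j hj1' i hi hc1
  have hb2 := hj₁ (j + 1) (by omega) i hi hc2
  have hrat := hj₂ j hj2'
  have hA : 1 ≤ AA k (gr η i) := hA1 (gr η i)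
  set N : ℕ := gr η i with hN
  set Aa := AA k N with hAa
  have hja : (0 : ℝ) < (j : ℝ) ^ a := pow_pos hjpos' a
  have hja1 : (0 : ℝ) < ((j : ℝ) + 1) ^ a := by positivity
  have hG1 : G θ k N ((j : ℝ) ^ a) ≤ G θ k N T := G_mono hJME θ hk _ hja.le hjT
  have hG2 : G θ k N T ≤ G θ k N (((j : ℝ) + 1) ^ a) := G_mono hJME θ hk _ hT0.le hTj.le
  have hcast : (((j + 1 : ℕ) : ℝ)) = (j : ℝ) + 1 := by push_cast; ring
  rw [hcast] at hb2
  rw [J_eq, abs_le] at hb1 hb2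
  set g₁ := G θ k N ((j : ℝ) ^ a) with hg₁
  set g₂ := G θ k N (((j : ℝ) + 1) ^ a) with hg₂
  have hg1 : (1 - ε₁) * Aa * (j : ℝ) ^ a ≤ g₁ := by
    have h1 : (1 - ε₁) * Aa ≤ 1 / (j : ℝ) ^ a * g₁ := by nlinarith [hb1.1]
    calc (1 - ε₁) * Aa * (j : ℝ) ^ a ≤ (1 / (j : ℝ) ^ a * g₁) * (j : ℝ) ^ a :=
          mul_le_mul_of_nonneg_right h1 hja.le
      _ = g₁ := by field_simp
  have hg2 : g₂ ≤ (1 + ε₁) * Aa * ((j : ℝ) + 1) ^ a := by
    have h1 : 1 / ((j : ℝ) + 1) ^ a * g₂ ≤ (1 + ε₁) * Aa := by nlinarith [hb2.2]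
    calc g₂ = (1 / ((j : ℝ) + 1) ^ a * g₂) * ((j : ℝ) + 1) ^ a := by field_simp
      _ ≤ (1 + ε₁) * Aa * ((j : ℝ) + 1) ^ a := mul_le_mul_of_nonneg_right h1 hja1.le
  have hrat' : ((j : ℝ) + 1) ^ a ≤ (1 + ε₁) * (j : ℝ) ^ a := by
    have h1 := (div_lt_iff₀ hja).mp hrat
    linarith
  rw [J_eq, abs_le]
  have hlow : (1 - ε₁) * (1 - ε₁) * Aa ≤ 1 / T * G θ k N T := by
    rw [one_div, inv_mul_eq_div, le_div_iff₀ hT0]
    have h1 : (1 - ε₁) * T ≤ (j : ℝ) ^ a := by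
      have h2 : (1 - ε₁) * T ≤ (1 - ε₁) * ((1 + ε₁) * (j : ℝ) ^ a) := by
        apply mul_le_mul_of_nonneg_left _ (by linarith)
        linarith
      have h3 : (1 - ε₁) * ((1 + ε₁) * (j : ℝ) ^ a) = (j : ℝ) ^ a - ε₁ ^ 2 * (j : ℝ) ^ a := by ring
      have h4 : 0 ≤ ε₁ ^ 2 * (j : ℝ) ^ a := by positivity
      linarith
    have h5 : 0 ≤ (1 - ε₁) * Aa := mul_nonneg (by linarith) (by linarith)
    calc (1 - ε₁) * (1 - ε₁) * Aa * T = ((1 - ε₁) * Aa) * ((1 - ε₁) * T) := by ring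
      _ ≤ ((1 - ε₁) * Aa) * (j : ℝ) ^ a := mul_le_mul_of_nonneg_left h1 h5
      _ ≤ g₁ := hg1
      _ ≤ G θ k N T := hG1
  have hup : 1 / T * G θ k N T ≤ (1 + ε₁) * (1 + ε₁) * Aa := by
    rw [one_div, inv_mul_eq_div, div_le_iff₀ hT0]
    have h5 : 0 ≤ (1 + ε₁) * Aa := mul_nonneg (by linarith) (by linarith)
    calc G θ k N T ≤ g₂ := hG2
      _ ≤ (1 + ε₁) * Aa * ((j : ℝ) + 1) ^ a := hg2
      _ ≤ (1 + ε₁) * Aa * ((1 + ε₁) * (j : ℝ) ^ a) := mul_le_mul_of_nonneg_left hrat' h5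
      _ ≤ (1 + ε₁) * Aa * ((1 + ε₁) * T) := by
          apply mul_le_mul_of_nonneg_left _ h5
          apply mul_le_mul_of_nonneg_left hjT (by linarith)
      _ = (1 + ε₁) * (1 + ε₁) * Aa * T := by ring
  constructor
  · have h6 : (1 - ε) * Aa ≤ (1 - ε₁) * (1 - ε₁) * Aa := by
      apply mul_le_mul_of_nonneg_right _ (by linarith)
      nlinarith [sq_nonneg ε₁]
    linarith
  · have h6 : (1 + ε₁) * (1 + ε₁) * Aa ≤ (1 + ε) * Aa := by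
      apply mul_le_mul_of_nonneg_right _ (by linarith)
      nlinarith [mul_nonneg he0.le (sub_nonneg.mpr he1)]
    linarith

end Pool.Agent.T2H98.EP
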