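import Pool.Agent.T2H98.EP.Stm

/-! package JME -/

set_option autoImplicit false

open MeasureTheory Filter Topology Finset

namespace Pool.Agent.T2H98.EP

open Pool.Agent.T2H98.RT (P tw ph D QS quads S_MUL S_OR S_VAR1 S_AE)
open Pool.Agent.H306R2 (lc dv aF)

namespace JME

lemma norm_zp (hMUL : S_MUL) (θ : ℕ → ℝ) (t : ℝ) {p : ℕ} (hp : p.Prime) :
    ‖zp θ t p‖ = (p : ℝ) ^ (-(1 / 2 : ℝ)) := by
  unfold zp
  rw [norm_mul, hMUL.2.1, one_mul, Complex.norm_natCast_cpow_of_pos hp.pos]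
  congr 1
  simp

lemma norm_zp_le (hMUL : S_MUL) (θ : ℕ → ℝ) (t : ℝ) {p : ℕ} (hp : p.Prime) : ‖zp θ t p‖ ≤ 3 / 4 := by
  rw [norm_zp hMUL θ t hp, Real.rpow_neg (Nat.cast_nonneg p), ← Real.sqrt_eq_rpow]
  have h2 : (2 : ℝ) ≤ p := by exact_mod_cast hp.two_le
  have h3 : (4 / 3 : ℝ) ≤ Real.sqrt p := by
    refine Real.le_sqrt_of_sq_le ?_
    norm_num
    linarith
  calc (Real.sqrt p)⁻¹ ≤ (4 / 3 : ℝ)⁻¹ := inv_anti₀ (by norm_num) h3
    _ = 3 / 4 := by norm_num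

lemma ne (hMUL : S_MUL) (θ : ℕ → ℝ) (t : ℝ) {p : ℕ} (hp : p.Prime) :
    1 / 4 ≤ ‖1 - zp θ t p‖ := by
  have h1 := norm_zp_le hMUL θ t hp
  have h2 := norm_sub_norm_le (1 : ℂ) (zp θ t p)
  rw [norm_one] at h2
  linarith

lemma cont_t (θ : ℕ → ℝ) (p : ℕ) (hp : p.Prime) : Continuous fun t : ℝ => zp θ t p := by
  unfold zp
  have h0 : (p : ℂ) ≠ 0 := Nat.cast_ne_zero.mpr hp.ne_zero
  refine continuous_const.mul ?_
  have : (fun t : ℝ => (p : ℂ) ^ (-(1 / 2 : ℂ) - t * Complex.I)) =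
      fun t : ℝ => Complex.exp (Complex.log p * (-(1 / 2 : ℂ) - t * Complex.I)) := by
    funext t
    rw [Complex.cpow_def_of_ne_zero h0]
  rw [this]
  fun_prop

lemma cont_θ (hMUL : S_MUL) (t : ℝ) (p : ℕ) : Continuous fun θ : ℕ → ℝ => zp θ t p := by
  unfold zp
  exact (hMUL.2.2.2 p).mul continuous_const

end JME

open JME in
theorem pJME (hMUL : S_MUL) : S_JME := by
  intro k y hk
  have hprime : ∀ p ∈ pr y, p.Prime := fun p hp => (mem_filter.mp hp).2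
  have hne : ∀ (θ : ℕ → ℝ) (t : ℝ), ∀ p ∈ pr y, (1 - zp θ t p) ≠ 0 := by
    intro θ t p hp h
    have := ne hMUL θ t (hprime p hp)
    rw [h, norm_zero] at this
    norm_num at this
  have hpos : ∀ (θ : ℕ → ℝ) (t : ℝ), 0 < ‖EU θ y t‖ := by
    intro θ t
    rw [norm_pos_iff]
    unfold EU
    exact prod_ne_zero_iff.mpr fun p hp => inv_ne_zero (hne θ t p hp)
  have hle : ∀ (θ : ℕ → ℝ) (t : ℝ), ‖EU θ y t‖ ≤ 4 ^ (pr y).card := by
    intro θ t
    unfold EU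
    rw [norm_prod]
    rw [← prod_const]
    refine prod_le_prod (fun p _ => norm_nonneg _) ?_
    intro p hp
    rw [norm_inv]
    have := ne hMUL θ t (hprime p hp)
    calc ‖1 - zp θ t p‖⁻¹ ≤ (1 / 4 : ℝ)⁻¹ := inv_anti₀ (by norm_num) this
      _ = 4 := by norm_num
  have hct : ∀ θ : ℕ → ℝ, Continuous fun t : ℝ => EU θ y t := by
    intro θ
    unfold EU
    refine continuous_finset_prod _ fun p hp => ?_
    exact (continuous_const.sub (cont_t θ p (hprime p hp))).inv₀ fun t => hne θ t p hp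
  have hcθ : ∀ t : ℝ, Continuous fun θ : ℕ → ℝ => EU θ y t := by
    intro t
    unfold EU
    refine continuous_finset_prod _ fun p hp => ?_
    exact (continuous_const.sub (cont_θ hMUL t p)).inv₀ fun θ => hne θ t p hp
  have h2k : 0 ≤ 2 * k := by linarith
  obtain ⟨B, hB⟩ : ∃ B : ℝ, B = ((4 : ℝ) ^ (pr y).card) ^ (2 * k) := ⟨_, rfl⟩
  have hBpos : 0 < B := by rw [hB]; positivity
  have hbd : ∀ (θ : ℕ → ℝ) (t : ℝ), ‖EU θ y t‖ ^ (2 * k) ≤ B := by
    intro θ t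
    rw [hB]
    exact Real.rpow_le_rpow (norm_nonneg _) (hle θ t) h2k
  have hcp : ∀ θ : ℕ → ℝ, Continuous (fun t : ℝ => ‖EU θ y t‖ ^ (2 * k)) := fun θ =>
    (hct θ).norm.rpow_const fun t => Or.inr h2k
  refine ⟨B, hBpos, fun θ t => ⟨hpos θ t, hbd θ t⟩, hcp, ?_⟩
  intro T hT
  have hnn : ∀ (θ : ℕ → ℝ) (t : ℝ), 0 ≤ ‖EU θ y t‖ ^ (2 * k) := fun θ t => Real.rpow_nonneg (norm_nonneg _) _
  refine ⟨?_, fun θ => ⟨?_, ?_⟩⟩
  · unfold JE
    refine continuous_const.mul ?_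
    refine intervalIntegral.continuous_of_dominated_interval (bound := fun _ => B) ?_ ?_ ?_ ?_
    · intro θ
      exact (hcp θ).aestronglyMeasurable
    · intro θ
      refine Eventually.of_forall fun t _ => ?_
      rw [Real.norm_eq_abs, abs_of_nonneg (hnn θ t)]
      exact hbd θ t
    · exact intervalIntegrable_const
    · refine Eventually.of_forall fun t _ => ?_
      exact (hcθ t).norm.rpow_const fun θ => Or.inr h2k
  · unfold JE
    refine mul_nonneg (by positivity) ?_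
    exact intervalIntegral.integral_nonneg hT.le fun t _ => hnn θ t
  · unfold JE
    have h1 : ∫ t in (0:ℝ)..T, ‖EU θ y t‖ ^ (2 * k) ≤ ∫ t in (0:ℝ)..T, B := by
      refine intervalIntegral.integral_mono_on hT.le ((hcp θ).intervalIntegrable _ _)
        intervalIntegrable_const fun t _ => hbd θ t
    rw [intervalIntegral.integral_const, sub_zero, smul_eq_mul] at h1
    calc 1 / T * ∫ t in (0:ℝ)..T, ‖EU θ y t‖ ^ (2 * k) ≤ 1 / T * (T * B) :=
          mul_le_mul_of_nonneg_left h1 (by positivity)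
      _ = B := by field_simp

end Pool.Agent.T2H98.EP
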