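import Pool.Agent.T2H98.EP.Stm
import Pool.Agent.H306R2.EPLim
import Pool.Agent.H305R2.MertensE

set_option autoImplicit false

open MeasureTheory Filter Topology Finset

namespace Pool.Agent.T2H98.EP

open Pool.Agent.H306R2 (lc dv aF)

namespace MER

/-- the regularised factor -/
noncomputable def g (k : ℝ) (p : ℕ) : ℝ :=
  (1 - 1 / (p : ℝ)) ^ (k ^ 2) * ∑' m : ℕ, lc k m ^ 2 * (1 / (p : ℝ)) ^ m

lemma tend_g (k : ℝ) (hk : 0 < k) : Tendsto (fun y : ℕ => ∏ p ∈ pr y, g k p) atTop (𝓝 (aF k)) := by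
  have h := (Pool.Agent.H306R2.aF_multipliable hk).hasProd
  have h2 : Tendsto (fun y : ℕ => (Finset.Icc 1 y).subtype Nat.Prime) atTop (atTop : Filter (Finset Nat.Primes)) := by
    refine Filter.tendsto_atTop_finset_of_monotone ?_ ?_
    · intro a b hab x hx
      rw [Finset.mem_subtype] at hx ⊢
      exact Finset.Icc_subset_Icc_right hab hx
    · intro p
      refine ⟨p.1, ?_⟩
      rw [Finset.mem_subtype]
      exact Finset.mem_Icc.2 ⟨p.2.one_lt.le, le_rfl⟩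
  have h3 := h.comp h2
  have h4 : aF k = ∏' p : Nat.Primes, ((1 - 1 / (p : ℝ)) ^ (k ^ 2) *
      ∑' m : ℕ, lc k m ^ 2 * (1 / (p : ℝ)) ^ m) := rfl
  rw [h4]
  refine h3.congr fun y => ?_
  exact Finset.prod_subtype_eq_prod_filter (s := Finset.Icc 1 y) (p := Nat.Prime) (fun p : ℕ => g k p)

lemma fac_pos (p : ℕ) (hp : p.Prime) : 0 < 1 - (p : ℝ)⁻¹ := by
  have h1 : (1 : ℝ) < p := by exact_mod_cast hp.one_lt
  have := inv_lt_one_of_one_lt₀ h1
  linarith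

lemma AA_eq (k : ℝ) (y : ℕ) : AA k y = (∏ p ∈ pr y, g k p) * (∏ p ∈ pr y, (1 - (p : ℝ)⁻¹)⁻¹) ^ (k ^ 2) := by
  rw [← Real.finset_prod_rpow (pr y) (fun p : ℕ => (1 - (p : ℝ)⁻¹)⁻¹)
    (fun p hp => (inv_pos.2 (fac_pos p (mem_filter.1 hp).2)).le) (k ^ 2), ← prod_mul_distrib]
  unfold AA
  refine prod_congr rfl fun p hp => ?_
  have h1 := fac_pos p (mem_filter.1 hp).2
  unfold g
  have h2 := (Real.rpow_pos_of_pos h1 (k ^ 2)).ne'
  have e : (1 - 1 / (p : ℝ)) = 1 - (p : ℝ)⁻¹ := by rw [one_div]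
  rw [e, Real.inv_rpow h1.le, mul_right_comm, mul_inv_cancel₀ h2, one_mul]

end MER

theorem pMER : S_MER := by
  intro k hk
  have h1 := MER.tend_g k hk
  have h2 := Pool.Agent.H305R2.mertens_three
  have h3 : Tendsto (fun y : ℕ => ((∏ p ∈ (Finset.Icc 1 y).filter Nat.Prime, (1 - (p : ℝ)⁻¹)⁻¹) / Real.log y) ^ (k ^ 2))
      atTop (𝓝 (Real.exp Real.eulerMascheroniConstant ^ (k ^ 2))) :=
    h2.rpow_const (Or.inl (Real.exp_pos _).ne')
  have h4 := h1.mul h3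
  rw [← Real.exp_mul] at h4
  refine h4.congr' ?_
  filter_upwards [eventually_ge_atTop 2] with y hy
  have h5 : 0 ≤ Real.log y := Real.log_natCast_nonneg y
  rw [MER.AA_eq k y, Real.div_rpow _ h5]
  · unfold pr
    ring
  · exact prod_nonneg fun p hp => (inv_pos.2 (MER.fac_pos p (mem_filter.1 hp).2)).le

end Pool.Agent.T2H98.EP
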