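import Pool.Agent.T2H98.EP.Stm
import Pool.Agent.T2H98.RT.QUAD

/-! package QR -/

set_option autoImplicit false

open MeasureTheory Filter Topology Finset

namespace Pool.Agent.T2H98.EP

open Pool.Agent.T2H98.RT (P tw ph D QS quads S_MUL S_OR S_VAR1 S_AE)
open Pool.Agent.H306R2 (lc dv aF)
open Pool.Agent.T2H98.RT.QUAD (red struct mem_quads inj mapsTo)

namespace QR

lemma MK_pos (y K : ℕ) : 0 < MK y K := by
  unfold MK
  refine prod_pos fun p hp => ?_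
  have : p.Prime := (mem_filter.mp hp).2
  exact pow_pos this.pos _

/-- the majorant -/
noncomputable def G (κ : ℝ) (w : (ℕ × ℕ) × (ℕ × ℕ)) : ℝ :=
  (dv κ w.1.1 ^ 2 / w.1.1) * (dv κ w.1.2 ^ 2 / w.1.2) *
    (dv κ w.2.1 ^ 2 * dv κ w.2.2 ^ 2 / ((w.2.1 : ℝ) * w.2.2 * |Real.log w.2.1 - Real.log w.2.2|))

lemma G_nonneg (κ : ℝ) (w : (ℕ × ℕ) × (ℕ × ℕ)) : 0 ≤ G κ w := by
  unfold G
  positivity

/-- quadruples of divisors -/
noncomputable def quads' (y K : ℕ) : Finset ((ℕ × ℕ) × (ℕ × ℕ)) :=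
  (quads (MK y K)).filter fun q => (q.1.1 ∣ MK y K ∧ q.1.2 ∣ MK y K) ∧ (q.2.1 ∣ MK y K ∧ q.2.2 ∣ MK y K)

lemma mapsTo' (y K : ℕ) : ∀ q ∈ quads' y K, red q ∈
    ((MK y K).divisors ×ˢ (MK y K).divisors) ×ˢ
      ((MK y K).divisors ×ˢ (MK y K).divisors).filter (fun q : ℕ × ℕ => q.1 ≠ q.2) := by
  rintro ⟨⟨m, n⟩, ⟨m', n'⟩⟩ hq
  obtain ⟨hq1, ⟨d1, d2⟩, ⟨d3, d4⟩⟩ := mem_filter.mp hq
  have h0 := mapsTo (MK y K) _ hq1
  simp only at d1 d2 d3 d4
  unfold red at h0 ⊢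
  simp only [mem_product, mem_filter, mem_Icc, Nat.mem_divisors] at h0 ⊢
  have hM : MK y K ≠ 0 := (MK_pos y K).ne'
  obtain ⟨_, _, h3⟩ := h0
  exact ⟨⟨⟨(Nat.gcd_dvd_left m n).trans d1, hM⟩, ⟨(Nat.gcd_dvd_left m' n').trans d3, hM⟩⟩,
    ⟨⟨(Nat.div_dvd_of_dvd (Nat.gcd_dvd_left m n)).trans d1, hM⟩,
      ⟨(Nat.div_dvd_of_dvd (Nat.gcd_dvd_right m n)).trans d2, hM⟩⟩, h3⟩

lemma summand (hSUB : S_SUB) {k κ : ℝ} {y K : ℕ} (hk : 0 < k) (hkκ : k ≤ κ) (hκ : 1 ≤ κ)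
    {q : (ℕ × ℕ) × (ℕ × ℕ)} (hq : q ∈ quads' y K) :
    cK k y K q.1.1 * cK k y K q.1.2 * (cK k y K q.2.1 * cK k y K q.2.2) /
      |Real.log q.1.1 - Real.log q.1.2| ≤ G κ (red q) := by
  obtain ⟨⟨m, n⟩, ⟨m', n'⟩⟩ := q
  obtain ⟨hq1, ⟨d1, d2⟩, ⟨d3, d4⟩⟩ := mem_filter.mp hq
  have hmap := mapsTo _ _ hq1
  obtain ⟨⟨h1, h2⟩, ⟨h3, h4⟩, h5, h6⟩ := mem_quads hq1
  simp only at h1 h2 h3 h4 h5 h6 d1 d2 d3 d4
  obtain ⟨s1, s2, s3, s4⟩ := struct h1.1 h2.1 h3.1 h4.1 h5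
  unfold red at hmap ⊢
  unfold G
  simp only [mem_product, mem_filter, mem_Icc] at hmap
  simp only
  obtain ⟨g, hg⟩ : ∃ g, g = m.gcd n := ⟨_, rfl⟩
  obtain ⟨g', hg'⟩ : ∃ g', g' = m'.gcd n' := ⟨_, rfl⟩
  obtain ⟨r, hr⟩ : ∃ r, r = m / m.gcd n := ⟨_, rfl⟩
  obtain ⟨s, hs⟩ : ∃ s, s = n / m.gcd n := ⟨_, rfl⟩
  rw [← hr, ← hs, ← hg, ← hg'] at hmap ⊢
  rw [← hr, ← hg] at s1
  rw [← hs, ← hg] at s2
  rw [← hr, ← hg'] at s3
  rw [← hs, ← hg'] at s4
  have p1 : (0 : ℝ) < g := by exact_mod_cast (by omega : 0 < g)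
  have p2 : (0 : ℝ) < g' := by exact_mod_cast (by omega : 0 < g')
  have p3 : (0 : ℝ) < r := by exact_mod_cast (by omega : 0 < r)
  have p4 : (0 : ℝ) < s := by exact_mod_cast (by omega : 0 < s)
  have e1 : (m : ℝ) = g * r := by exact_mod_cast s1
  have e2 : (n : ℝ) = g * s := by exact_mod_cast s2
  have e3 : (m' : ℝ) = g' * r := by exact_mod_cast s3
  have e4 : (n' : ℝ) = g' * s := by exact_mod_cast s4
  have hlog : Real.log m - Real.log n = Real.log r - Real.log s := by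
    rw [e1, e2, Real.log_mul p1.ne' p3.ne', Real.log_mul p1.ne' p4.ne']
    ring
  have hsq : Real.sqrt m * Real.sqrt n * (Real.sqrt m' * Real.sqrt n') = g * g' * (r * s) := by
    rw [← Real.sqrt_mul (by positivity), ← Real.sqrt_mul (by positivity), ← Real.sqrt_mul (by positivity), e1, e2,
      e3, e4, show ((g : ℝ) * r * (g * s) * (g' * r * (g' * s))) = (g * g' * (r * s)) ^ 2 by ring,
      Real.sqrt_sq (by positivity)]
  have c1 : cK k y K m = dv k m / Real.sqrt m := by unfold cK; rw [if_pos d1]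
  have c2 : cK k y K n = dv k n / Real.sqrt n := by unfold cK; rw [if_pos d2]
  have c3 : cK k y K m' = dv k m' / Real.sqrt m' := by unfold cK; rw [if_pos d3]
  have c4 : cK k y K n' = dv k n' / Real.sqrt n' := by unfold cK; rw [if_pos d4]
  rw [c1, c2, c3, c4, hlog]
  have hnn : ∀ a : ℕ, 0 ≤ dv κ a := fun a => ((hSUB.2 k κ a hk hkκ).1).trans (hSUB.2 k κ a hk hkκ).2
  have hb : ∀ a b : ℕ, 1 ≤ a → 1 ≤ b → dv k (a * b) ≤ dv κ a * dv κ b := fun a b ha hb =>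
    ((hSUB.2 k κ (a * b) hk hkκ).2).trans (hSUB.1 κ a b hκ ha hb)
  have b1 : dv k m ≤ dv κ g * dv κ r := by rw [s1]; exact hb g r (by omega) (by omega)
  have b2 : dv k n ≤ dv κ g * dv κ s := by rw [s2]; exact hb g s (by omega) (by omega)
  have b3 : dv k m' ≤ dv κ g' * dv κ r := by rw [s3]; exact hb g' r (by omega) (by omega)
  have b4 : dv k n' ≤ dv κ g' * dv κ s := by rw [s4]; exact hb g' s (by omega) (by omega)
  have z1 := (hSUB.2 k κ m hk hkκ).1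
  have z2 := (hSUB.2 k κ n hk hkκ).1
  have z3 := (hSUB.2 k κ m' hk hkκ).1
  have z4 := (hSUB.2 k κ n' hk hkκ).1
  have hl : dv k m / Real.sqrt m * (dv k n / Real.sqrt n) * (dv k m' / Real.sqrt m' * (dv k n' / Real.sqrt n')) /
      |Real.log r - Real.log s| =
      (dv k m * dv k n * (dv k m' * dv k n')) / (g * g' * (r * s)) / |Real.log r - Real.log s| := by
    rw [div_mul_div_comm, div_mul_div_comm, div_mul_div_comm, hsq]
  rw [hl]
  have hr2 : dv κ g ^ 2 / g * (dv κ g' ^ 2 / g') *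
      (dv κ r ^ 2 * dv κ s ^ 2 / ((r : ℝ) * s * |Real.log r - Real.log s|)) =
      ((dv κ g * dv κ r) * (dv κ g * dv κ s) * ((dv κ g' * dv κ r) * (dv κ g' * dv κ s))) /
        (g * g' * (r * s)) / |Real.log r - Real.log s| := by
    rw [div_mul_div_comm, div_mul_div_comm, div_div]
    congr 1 <;> ring
  rw [hr2]
  have m1 : dv k m * dv k n ≤ (dv κ g * dv κ r) * (dv κ g * dv κ s) :=
    mul_le_mul b1 b2 z2 (mul_nonneg (hnn _) (hnn _))
  have m2 : dv k m' * dv k n' ≤ (dv κ g' * dv κ r) * (dv κ g' * dv κ s) :=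
    mul_le_mul b3 b4 z4 (mul_nonneg (hnn _) (hnn _))
  have m3 := mul_le_mul m1 m2 (mul_nonneg z3 z4)
    (mul_nonneg (mul_nonneg (hnn _) (hnn _)) (mul_nonneg (hnn _) (hnn _)))
  exact div_le_div_of_nonneg_right (div_le_div_of_nonneg_right m3 (by positivity)) (abs_nonneg _)

end QR

open QR in
theorem pQR (hSUB : S_SUB) : S_QR := by
  intro k κ y K hk hkκ hκ
  have h0 : QS (cK k y K) (MK y K) = ∑ q ∈ quads' y K, cK k y K q.1.1 * cK k y K q.1.2 *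
      (cK k y K q.2.1 * cK k y K q.2.2) / |Real.log q.1.1 - Real.log q.1.2| := by
    unfold QS quads'
    symm
    rw [sum_filter]
    refine sum_congr rfl fun q _ => ?_
    split_ifs with h
    · rfl
    · have hz : cK k y K q.1.1 * cK k y K q.1.2 * (cK k y K q.2.1 * cK k y K q.2.2) = 0 := by
        by_cases h1 : q.1.1 ∣ MK y K
        · by_cases h2 : q.1.2 ∣ MK y K
          · by_cases h3 : q.2.1 ∣ MK y K
            · have h4 : ¬ q.2.2 ∣ MK y K := fun h4 => h ⟨⟨h1, h2⟩, h3, h4⟩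
              have : cK k y K q.2.2 = 0 := by unfold cK; rw [if_neg h4]
              rw [this, mul_zero, mul_zero]
            · have : cK k y K q.2.1 = 0 := by unfold cK; rw [if_neg h3]
              rw [this, zero_mul, mul_zero]
          · have : cK k y K q.1.2 = 0 := by unfold cK; rw [if_neg h2]
            rw [this, mul_zero, zero_mul]
        · have : cK k y K q.1.1 = 0 := by unfold cK; rw [if_neg h1]
          rw [this, zero_mul, zero_mul]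
      rw [hz, zero_div]
  rw [h0]
  have h1 : ∑ q ∈ quads' y K, cK k y K q.1.1 * cK k y K q.1.2 *
      (cK k y K q.2.1 * cK k y K q.2.2) / |Real.log q.1.1 - Real.log q.1.2| ≤
      ∑ q ∈ quads' y K, G κ (red q) := sum_le_sum fun q hq => summand hSUB hk hkκ hκ hq
  refine h1.trans ?_
  have hinj : Set.InjOn red (quads' y K) := by
    refine (inj (MK y K)).mono ?_
    intro q hq
    exact (mem_filter.mp hq).1
  rw [← sum_image (f := G κ) hinj]
  have h2 : (∑ g ∈ (MK y K).divisors, dv κ g ^ 2 / g) ^ 2 *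
    ∑ q ∈ ((MK y K).divisors ×ˢ (MK y K).divisors).filter (fun q => q.1 ≠ q.2),
      dv κ q.1 ^ 2 * dv κ q.2 ^ 2 / ((q.1 : ℝ) * q.2 * |Real.log q.1 - Real.log q.2|) =
      ∑ w ∈ ((MK y K).divisors ×ˢ (MK y K).divisors) ×ˢ
        ((MK y K).divisors ×ˢ (MK y K).divisors).filter (fun q : ℕ × ℕ => q.1 ≠ q.2), G κ w := by
    have h3 : (∑ g ∈ (MK y K).divisors, dv κ g ^ 2 / g) ^ 2 =
        ∑ q ∈ (MK y K).divisors ×ˢ (MK y K).divisors, (dv κ q.1 ^ 2 / q.1) * (dv κ q.2 ^ 2 / q.2) := by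
      rw [sq, sum_mul_sum, ← sum_product']
    rw [h3, sum_mul_sum, ← sum_product']
    rfl
  rw [h2]
  refine sum_le_sum_of_subset_of_nonneg ?_ fun w _ _ => G_nonneg κ w
  intro w hw
  rw [mem_image] at hw
  obtain ⟨q, hq, rfl⟩ := hw
  exact mapsTo' y K q hq

end Pool.Agent.T2H98.EP
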