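import Pool.Agent.T2H98.EP.Stm
import Pool.Agent.H305R2.MertensE
import Pool.Agent.H306R2.Arith

/-!
# Package RK: Rankin's trick for the divisors of `MK y K`
-/

set_option autoImplicit false

open MeasureTheory Filter Topology Finset

namespace Pool.Agent.T2H98.EP

open Pool.Agent.H306R2 (lc dv aF dA_mult dA_apply dv_one dv_prime_pow lc_succ lc_nonneg dv_nonneg lc_zero)

namespace RK

/-- the terms -/
noncomputable def FA (κ : ℝ) (a : ℕ) (σ : ℝ) : ArithmeticFunction ℝ :=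
  ⟨fun r => if r = 0 then 0 else dv κ r ^ a * (r : ℝ) ^ (σ - 1), by simp⟩

lemma FA_apply (κ : ℝ) (a : ℕ) (σ : ℝ) {r : ℕ} (hr : r ≠ 0) :
    FA κ a σ r = dv κ r ^ a * (r : ℝ) ^ (σ - 1) := by
  show (if r = 0 then 0 else dv κ r ^ a * (r : ℝ) ^ (σ - 1)) = _
  rw [if_neg hr]

lemma FA_mult (κ : ℝ) (a : ℕ) (σ : ℝ) : (FA κ a σ).IsMultiplicative := by
  rw [ArithmeticFunction.IsMultiplicative.iff_ne_zero]
  refine ⟨?_, fun {m n} hm hn hmn => ?_⟩
  · rw [FA_apply κ a σ one_ne_zero, dv_one]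
    simp
  · rw [FA_apply κ a σ hm, FA_apply κ a σ hn, FA_apply κ a σ (mul_ne_zero hm hn)]
    have h : dv κ (m * n) = dv κ m * dv κ n := (dA_mult κ).map_mul_of_coprime hmn
    rw [h, Nat.cast_mul, Real.mul_rpow (by positivity) (by positivity), mul_pow]
    ring

lemma FA_prime_pow (κ : ℝ) (a : ℕ) (σ : ℝ) {p : ℕ} (hp : p.Prime) (m : ℕ) :
    FA κ a σ (p ^ m) = lc κ m ^ a * ((p : ℝ) ^ (σ - 1)) ^ m := by
  rw [FA_apply κ a σ (pow_ne_zero _ hp.ne_zero), dv_prime_pow κ hp]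
  congr 1
  rw [Nat.cast_pow, ← Real.rpow_natCast, ← Real.rpow_mul (by positivity), mul_comm,
    Real.rpow_mul (by positivity), Real.rpow_natCast]

lemma sum_divisors (κ : ℝ) (a : ℕ) (σ : ℝ) (y K : ℕ) :
    ∑ r ∈ (MK y K).divisors, FA κ a σ r =
      ∏ p ∈ pr y, ∑ m ∈ range (K + 1), lc κ m ^ a * ((p : ℝ) ^ (σ - 1)) ^ m := by
  have hG : (FA κ a σ * (ArithmeticFunction.zeta : ArithmeticFunction ℝ)).IsMultiplicative :=
    (FA_mult κ a σ).mul ArithmeticFunction.isMultiplicative_zeta.natCast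
  have hprime : ∀ p ∈ pr y, p.Prime := fun p hp => (mem_filter.1 hp).2
  have h1 := hG.map_prod (fun p : ℕ => p ^ K) (pr y) (fun p hp q hq hpq =>
    Nat.Coprime.pow K K ((Nat.coprime_primes (hprime p hp) (hprime q hq)).2 hpq))
  rw [ArithmeticFunction.coe_mul_zeta_apply] at h1
  unfold MK
  rw [h1]
  refine prod_congr rfl fun p hp => ?_
  rw [ArithmeticFunction.coe_mul_zeta_apply, Nat.sum_divisors_prime_pow (hprime p hp)]
  exact sum_congr rfl fun m _ => FA_prime_pow κ a σ (hprime p hp) m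

lemma summable_lc {κ : ℝ} (hκ : 1 ≤ κ) (a : ℕ) :
    Summable (fun m : ℕ => lc κ m ^ a * (3 / 5 : ℝ) ^ m) := by
  have hpos : ∀ m, 0 < lc κ m := by
    intro m
    unfold lc
    exact prod_pos fun i _ => by positivity
  refine summable_of_ratio_test_tendsto_lt_one (l := 3 / 5) (by norm_num)
    (Eventually.of_forall fun m => ?_) ?_
  · have := hpos m
    positivity
  · have h1 : Tendsto (fun m : ℕ => ((κ + m) / ((m : ℝ) + 1)) ^ a * (3 / 5)) atTop
        (𝓝 ((1 : ℝ) ^ a * (3 / 5))) := by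
      refine Tendsto.mul_const _ (Tendsto.pow ?_ a)
      have h2 : Tendsto (fun m : ℕ => (κ - 1) / ((m : ℝ) + 1) + 1) atTop (𝓝 (0 + 1)) := by
        refine Tendsto.add_const _ ?_
        exact Tendsto.div_atTop tendsto_const_nhds
          (tendsto_atTop_add_const_right _ _ tendsto_natCast_atTop_atTop)
      rw [zero_add] at h2
      refine h2.congr fun m => ?_
      have : (m : ℝ) + 1 ≠ 0 := by positivity
      field_simp
      ring
    rw [one_pow, one_mul] at h1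
    refine h1.congr fun m => ?_
    have h3 := hpos m
    have h4 := hpos (m + 1)
    rw [Real.norm_of_nonneg (by positivity), Real.norm_of_nonneg (by positivity), lc_succ]
    have : (m : ℝ) + 1 ≠ 0 := by positivity
    have h5 : lc κ m ^ a ≠ 0 := by positivity
    rw [mul_pow, pow_succ]
    field_simp

lemma local_le {κ : ℝ} (hκ : 1 ≤ κ) (a : ℕ) : ∃ S : ℝ, 0 < S ∧ ∀ (K : ℕ) (q : ℝ), 0 ≤ q → q ≤ 3 / 5 →
    ∑ m ∈ range (K + 1), lc κ m ^ a * q ^ m ≤ 1 + q * S := by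
  have hs := summable_lc hκ a
  have hs' : Summable (fun m : ℕ => lc κ (m + 1) ^ a * (3 / 5 : ℝ) ^ m) := by
    have h1 := ((summable_nat_add_iff 1).2 hs).mul_right (5 / 3)
    refine h1.congr fun m => ?_
    rw [pow_succ]
    ring
  have h0 : ∀ m, 0 ≤ lc κ (m + 1) ^ a * (3 / 5 : ℝ) ^ m := fun m => by
    have := lc_nonneg (zero_le_one.trans hκ) (m + 1)
    positivity
  refine ⟨∑' m : ℕ, lc κ (m + 1) ^ a * (3 / 5 : ℝ) ^ m + 1, ?_, fun K q hq hq1 => ?_⟩
  · have : 0 ≤ ∑' m : ℕ, lc κ (m + 1) ^ a * (3 / 5 : ℝ) ^ m := tsum_nonneg h0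
    linarith
  · rw [sum_range_succ']
    have h1 : ∑ m ∈ range K, lc κ (m + 1) ^ a * q ^ (m + 1) ≤
        q * ∑' m : ℕ, lc κ (m + 1) ^ a * (3 / 5 : ℝ) ^ m := by
      calc ∑ m ∈ range K, lc κ (m + 1) ^ a * q ^ (m + 1)
          ≤ ∑ m ∈ range K, q * (lc κ (m + 1) ^ a * (3 / 5 : ℝ) ^ m) := by
            refine sum_le_sum fun m _ => ?_
            have h2 := lc_nonneg (zero_le_one.trans hκ) (m + 1)
            have h3 : q ^ m ≤ (3 / 5 : ℝ) ^ m := pow_le_pow_left₀ hq hq1 m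
            rw [pow_succ]
            calc lc κ (m + 1) ^ a * (q ^ m * q) = q * (lc κ (m + 1) ^ a * q ^ m) := by ring
              _ ≤ _ := mul_le_mul_of_nonneg_left (mul_le_mul_of_nonneg_left h3 (by positivity)) hq
        _ = q * ∑ m ∈ range K, (lc κ (m + 1) ^ a * (3 / 5 : ℝ) ^ m) := by rw [mul_sum]
        _ ≤ _ := mul_le_mul_of_nonneg_left (hs'.sum_le_tsum _ fun m _ => h0 m) hq
    rw [lc_zero]
    simp only [one_pow, pow_zero, mul_one]
    nlinarith

lemma two_rpow : (2 : ℝ) ^ (-(3 / 4) : ℝ) ≤ 3 / 5 := by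
  have h0 : (0 : ℝ) ≤ (2 : ℝ) ^ (-(3 / 4) : ℝ) := by positivity
  by_contra h
  push Not at h
  have h1 : (3 / 5 : ℝ) ^ 4 < ((2 : ℝ) ^ (-(3 / 4) : ℝ)) ^ 4 := pow_lt_pow_left₀ h (by norm_num) (by norm_num)
  rw [← Real.rpow_natCast, ← Real.rpow_natCast, ← Real.rpow_mul (by norm_num)] at h1
  norm_num at h1

/-- Mertens -/
lemma prod_le : ∃ C : ℝ, 1 ≤ C ∧ ∀ y : ℕ, 3 ≤ y →
    ∏ p ∈ pr y, (1 - (p : ℝ)⁻¹)⁻¹ ≤ C * Real.log y := by
  have h := Pool.Agent.H305R2.mertens_three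
  obtain ⟨B, hB⟩ := h.bddAbove_range
  refine ⟨max B 1, le_max_right _ _, fun y hy => ?_⟩
  have h1 : (∏ p ∈ (Finset.Icc 1 y).filter Nat.Prime, (1 - (p : ℝ)⁻¹)⁻¹) / Real.log y ≤ B :=
    hB ⟨y, rfl⟩
  have hlog : 0 < Real.log y := Real.log_pos (by exact_mod_cast (by omega : 1 < y))
  rw [div_le_iff₀ hlog] at h1
  unfold pr
  exact h1.trans (mul_le_mul_of_nonneg_right (le_max_left _ _) hlog.le)

end RK

open RK in
theorem pRK : S_RK := by
  intro κ a hκ
  obtain ⟨S, hS, hloc⟩ := local_le hκ a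
  obtain ⟨C, hC, hM⟩ := prod_le
  have hE := Real.exp_pos 1
  refine ⟨max (5 * C ^ (Real.exp 1 * S)) (1 + Real.exp 1 * S), lt_of_lt_of_le (by positivity) (le_max_right _ _),
    fun y K hy => ?_⟩
  have hy' : (3 : ℝ) ≤ y := by exact_mod_cast hy
  have hlog1 : 1 ≤ Real.log y := by
    rw [Real.le_log_iff_exp_le (by positivity)]
    exact (Real.exp_one_lt_d9.le.trans (by norm_num)).trans hy'
  have hlog0 : 0 < Real.log y := by linarith
  set σ : ℝ := min (1 / 4) (1 / Real.log y) with hσ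
  have hσ0 : 0 < σ := lt_min (by norm_num) (by positivity)
  have hσ1 : σ ≤ 1 / 4 := min_le_left _ _
  have hσ2 : σ ≤ 1 / Real.log y := min_le_right _ _
  have hσ3 : 1 / σ ≤ 4 * Real.log y := by
    rw [div_le_iff₀ hσ0, hσ]
    rcases min_choice (1 / 4 : ℝ) (1 / Real.log y) with h | h
    · rw [h]; linarith
    · rw [h]; field_simp; norm_num
  have hMK : MK y K ≠ 0 := by
    unfold MK
    exact prod_ne_zero_iff.2 fun p hp => pow_ne_zero _ (mem_filter.1 hp).2.ne_zero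
  -- Rankin
  have h1 : ∑ r ∈ (MK y K).divisors, dv κ r ^ a * (1 + Real.log r) / r ≤
      ∑ r ∈ (MK y K).divisors, 5 * Real.log y * FA κ a σ r := by
    refine sum_le_sum fun r hr => ?_
    have hr0 : r ≠ 0 := (Nat.pos_of_mem_divisors hr).ne'
    have hr1 : (1 : ℝ) ≤ r := by exact_mod_cast Nat.pos_of_mem_divisors hr
    have hrp : (0 : ℝ) < r := by linarith
    have h2 : 1 + Real.log r ≤ 5 * Real.log y * (r : ℝ) ^ σ := by
      have h3 := Real.log_le_rpow_div hrp.le hσ0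
      have h4 : (1 : ℝ) ≤ (r : ℝ) ^ σ := Real.one_le_rpow hr1 hσ0.le
      have h5 : (r : ℝ) ^ σ / σ ≤ 4 * Real.log y * (r : ℝ) ^ σ := by
        rw [div_eq_mul_one_div, mul_comm]
        exact mul_le_mul_of_nonneg_right hσ3 (by positivity)
      nlinarith
    rw [FA_apply κ a σ hr0, Real.rpow_sub_one hrp.ne']
    have h6 := dv_nonneg (zero_le_one.trans hκ) r
    calc dv κ r ^ a * (1 + Real.log r) / r ≤ dv κ r ^ a * (5 * Real.log y * (r : ℝ) ^ σ) / r := by
          gcongr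
      _ = _ := by ring
  refine h1.trans ?_
  rw [← mul_sum, sum_divisors]
  have hfac : ∀ p ∈ pr y, ∑ m ∈ range (K + 1), lc κ m ^ a * ((p : ℝ) ^ (σ - 1)) ^ m ≤
      ((1 - (p : ℝ)⁻¹)⁻¹) ^ (Real.exp 1 * S) := by
    intro p hp
    have hpp := (mem_filter.1 hp).2
    have hpy : p ≤ y := (mem_Icc.1 (mem_filter.1 hp).1).2
    have hp2 : (2 : ℝ) ≤ p := by exact_mod_cast hpp.two_le
    have hp0 : (0 : ℝ) < p := by linarith
    have hpy' : (p : ℝ) ≤ y := by exact_mod_cast hpy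
    have q0 : 0 ≤ (p : ℝ) ^ (σ - 1) := by positivity
    have q1 : (p : ℝ) ^ (σ - 1) ≤ 3 / 5 := by
      calc (p : ℝ) ^ (σ - 1) ≤ (p : ℝ) ^ (-(3 / 4) : ℝ) :=
            Real.rpow_le_rpow_of_exponent_le (by linarith) (by linarith)
        _ ≤ (2 : ℝ) ^ (-(3 / 4) : ℝ) := Real.rpow_le_rpow_of_nonpos (by norm_num) hp2 (by norm_num)
        _ ≤ 3 / 5 := two_rpow
    have q2 : (p : ℝ) ^ (σ - 1) ≤ Real.exp 1 * (p : ℝ)⁻¹ := by
      rw [Real.rpow_sub_one hp0.ne', div_eq_mul_inv]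
      refine mul_le_mul_of_nonneg_right ?_ (by positivity)
      rw [Real.rpow_def_of_pos hp0]
      apply Real.exp_le_exp.2
      have hlp : Real.log p ≤ Real.log y := Real.log_le_log hp0 hpy'
      have hlp0 : 0 ≤ Real.log p := Real.log_nonneg (by linarith)
      calc Real.log p * σ ≤ Real.log y * (1 / Real.log y) := mul_le_mul hlp hσ2 hσ0.le hlog0.le
        _ = 1 := by field_simp
    refine (hloc K _ q0 q1).trans ?_
    have hpi : (p : ℝ)⁻¹ ≤ 1 / 2 := by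
      rw [inv_le_comm₀ hp0 (by norm_num)]
      linarith
    have hpi0 : 0 < (p : ℝ)⁻¹ := by positivity
    calc 1 + (p : ℝ) ^ (σ - 1) * S ≤ 1 + (p : ℝ)⁻¹ * (Real.exp 1 * S) := by nlinarith
      _ ≤ Real.exp ((p : ℝ)⁻¹ * (Real.exp 1 * S)) := by
          have := Real.add_one_le_exp ((p : ℝ)⁻¹ * (Real.exp 1 * S))
          linarith
      _ = (Real.exp ((p : ℝ)⁻¹)) ^ (Real.exp 1 * S) := by rw [← Real.exp_mul]
      _ ≤ _ := by
          refine Real.rpow_le_rpow (Real.exp_pos _).le ?_ (by positivity)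
          rw [← neg_neg ((p : ℝ)⁻¹), Real.exp_neg, neg_neg]
          refine inv_anti₀ (by linarith) ?_
          have := Real.add_one_le_exp (-(p : ℝ)⁻¹)
          linarith
  have hprod : ∏ p ∈ pr y, ∑ m ∈ range (K + 1), lc κ m ^ a * ((p : ℝ) ^ (σ - 1)) ^ m ≤
      (C * Real.log y) ^ (Real.exp 1 * S) := by
    calc ∏ p ∈ pr y, ∑ m ∈ range (K + 1), lc κ m ^ a * ((p : ℝ) ^ (σ - 1)) ^ m
        ≤ ∏ p ∈ pr y, ((1 - (p : ℝ)⁻¹)⁻¹) ^ (Real.exp 1 * S) :=
          prod_le_prod (fun p _ => sum_nonneg fun m _ => by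
            have := lc_nonneg (zero_le_one.trans hκ) m
            positivity) hfac
      _ = (∏ p ∈ pr y, (1 - (p : ℝ)⁻¹)⁻¹) ^ (Real.exp 1 * S) := by
          refine Real.finsetProd_rpow _ _ (fun p hp => ?_) _
          have hpp := (mem_filter.1 hp).2
          have hp1 : (1 : ℝ) ≤ p := by exact_mod_cast hpp.one_lt.le
          rw [inv_nonneg, sub_nonneg]
          exact inv_le_one_of_one_le₀ hp1
      _ ≤ _ := by
          refine Real.rpow_le_rpow (prod_nonneg fun p hp => ?_) (hM y hy) (by positivity)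
          have hpp := (mem_filter.1 hp).2
          have hp1 : (1 : ℝ) ≤ p := by exact_mod_cast hpp.one_lt.le
          rw [inv_nonneg, sub_nonneg]
          exact inv_le_one_of_one_le₀ hp1
  calc 5 * Real.log y * ∏ p ∈ pr y, ∑ m ∈ range (K + 1), lc κ m ^ a * ((p : ℝ) ^ (σ - 1)) ^ m
      ≤ 5 * Real.log y * (C * Real.log y) ^ (Real.exp 1 * S) :=
        mul_le_mul_of_nonneg_left hprod (by positivity)
    _ = 5 * C ^ (Real.exp 1 * S) * Real.log y ^ (1 + Real.exp 1 * S) := by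
        rw [Real.mul_rpow (by linarith) hlog0.le, Real.rpow_add hlog0, Real.rpow_one]
        ring
    _ ≤ _ := by
        refine mul_le_mul (le_max_left _ _) (Real.rpow_le_rpow_of_exponent_le hlog1 (le_max_right _ _))
          (by positivity) (le_trans (by positivity) (le_max_left _ _))

end Pool.Agent.T2H98.EP
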