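import Pool.Agent.T2H98.EP.Stm

/-! # Package STEP: one step of the grid -/

set_option autoImplicit false

open MeasureTheory Filter Topology Finset

namespace Pool.Agent.T2H98.EP

open Pool.Agent.T2H98.RT (P tw ph D QS quads S_MUL S_OR S_VAR1 S_AE)
open Pool.Agent.H306R2 (lc dv aF)

namespace STEP

lemma norm_zp (hMUL : S_MUL) (θ : ℕ → ℝ) (t : ℝ) {p : ℕ} (hp : 0 < p) :
    ‖zp θ t p‖ = (p : ℝ) ^ (-(1 / 2 : ℝ)) := by
  unfold zp
  rw [norm_mul, hMUL.2.1 θ p, one_mul, Complex.norm_natCast_cpow_of_pos hp]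
  congr 1
  simp

/-- the number of integers in a step -/
lemma count {η : ℝ} (hη : 0 < η) (hη1 : η ≤ 1) {i : ℕ} (hi : 1 ≤ i) {y : ℕ}
    (hy : y < gr η (i + 1)) : ((y - gr η i : ℕ) : ℝ) ≤ 4 * (i : ℝ) ^ (1 - η / 2) := by
  have hi1 : (1 : ℝ) ≤ i := by exact_mod_cast hi
  set β : ℝ := 2 - η / 2 with hβ
  have hβ1 : 1 ≤ β := by linarith
  have hβ2 : β ≤ 2 := by linarith
  have h1 : (gr η (i + 1) : ℝ) ≤ ((i : ℝ) + 1) ^ β := by
    unfold gr
    have h2 := Nat.floor_le (a := (((i + 1 : ℕ) : ℝ)) ^ (2 - η / 2)) (by positivity)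
    push_cast at h2
    push_cast
    exact h2
  have h2 : (i : ℝ) ^ β < (gr η i : ℝ) + 1 := by
    unfold gr
    exact Nat.lt_floor_add_one _
  have h3 : (y : ℝ) + 1 ≤ gr η (i + 1) := by exact_mod_cast hy
  have h0 : (0 : ℝ) ≤ 4 * (i : ℝ) ^ (1 - η / 2) := by positivity
  by_cases hle : gr η i ≤ y
  swap
  · rw [Nat.sub_eq_zero_of_le (by omega)]
    simpa using h0
  rw [Nat.cast_sub hle]
  -- Bernoulli
  have h4 : 1 + β * (-(1 / ((i : ℝ) + 1))) ≤ (1 + -(1 / ((i : ℝ) + 1))) ^ β := by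
    refine one_add_mul_self_le_rpow_one_add ?_ hβ1
    rw [neg_le_neg_iff, div_le_one (by linarith)]
    linarith
  have h5 : (i : ℝ) ^ β = ((i : ℝ) + 1) ^ β * (1 + -(1 / ((i : ℝ) + 1))) ^ β := by
    rw [← Real.mul_rpow (by linarith) (by
      have : 1 / ((i : ℝ) + 1) ≤ 1 := by
        rw [div_le_one (by linarith)]
        linarith
      linarith)]
    congr 1
    field_simp
    ring
  have h6 : ((i : ℝ) + 1) ^ β * (1 + β * (-(1 / ((i : ℝ) + 1)))) ≤ (i : ℝ) ^ β := by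
    rw [h5]
    exact mul_le_mul_of_nonneg_left h4 (by positivity)
  have h7 : ((i : ℝ) + 1) ^ β * (1 / ((i : ℝ) + 1)) = ((i : ℝ) + 1) ^ (1 - η / 2) := by
    rw [show (1 - η / 2 : ℝ) = β - 1 by rw [hβ]; ring, Real.rpow_sub_one (by linarith)]
    ring
  have h8 : ((i : ℝ) + 1) ^ (1 - η / 2) ≤ 2 * (i : ℝ) ^ (1 - η / 2) := by
    have h9 : ((i : ℝ) + 1) ^ (1 - η / 2) ≤ (2 * (i : ℝ)) ^ (1 - η / 2) :=
      Real.rpow_le_rpow (by linarith) (by linarith) (by linarith)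
    rw [Real.mul_rpow (by norm_num) (by linarith)] at h9
    have h10 : (2 : ℝ) ^ (1 - η / 2) ≤ 2 := by
      conv_rhs => rw [← Real.rpow_one 2]
      exact Real.rpow_le_rpow_of_exponent_le (by norm_num) (by linarith)
    have h11 : (0 : ℝ) ≤ (i : ℝ) ^ (1 - η / 2) := by positivity
    nlinarith
  have h12 : ((i : ℝ) + 1) ^ β - (i : ℝ) ^ β ≤ β * ((i : ℝ) + 1) ^ (1 - η / 2) := by
    rw [← h7]
    linarith
  have h13 : (0 : ℝ) ≤ ((i : ℝ) + 1) ^ (1 - η / 2) := by positivity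
  nlinarith

/-- the sum of `n^(-1/2)` over a step -/
lemma sum_le {η : ℝ} (hη : 0 < η) (hη1 : η ≤ 1) {i : ℕ} (hi : 1 ≤ i) {y : ℕ}
    (hy : y < gr η (i + 1)) :
    ∑ n ∈ Ioc (gr η i) y, (n : ℝ) ^ (-(1 / 2 : ℝ)) ≤ 4 * (i : ℝ) ^ (-(η / 4)) := by
  have hi1 : (1 : ℝ) ≤ i := by exact_mod_cast hi
  have h1 : ∀ n ∈ Ioc (gr η i) y, (n : ℝ) ^ (-(1 / 2 : ℝ)) ≤ (i : ℝ) ^ (-(1 - η / 4)) := by
    intro n hn
    rw [mem_Ioc] at hn
    have h2 : (i : ℝ) ^ (2 - η / 2) ≤ n := by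
      have h3 : (i : ℝ) ^ (2 - η / 2) < (gr η i : ℝ) + 1 := by
        unfold gr
        exact Nat.lt_floor_add_one _
      have h4 : (gr η i : ℝ) + 1 ≤ n := by exact_mod_cast hn.1
      linarith
    have h5 : (n : ℝ) ^ (-(1 / 2 : ℝ)) ≤ ((i : ℝ) ^ (2 - η / 2)) ^ (-(1 / 2 : ℝ)) :=
      Real.rpow_le_rpow_of_nonpos (by positivity) h2 (by norm_num)
    refine h5.trans (le_of_eq ?_)
    rw [← Real.rpow_mul (by linarith)]
    congr 1
    ring
  refine (Finset.sum_le_card_nsmul _ _ _ h1).trans ?_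
  rw [nsmul_eq_mul, Nat.card_Ioc]
  have h2 := count hη hη1 hi hy
  calc ((y - gr η i : ℕ) : ℝ) * (i : ℝ) ^ (-(1 - η / 4))
      ≤ 4 * (i : ℝ) ^ (1 - η / 2) * (i : ℝ) ^ (-(1 - η / 4)) :=
        mul_le_mul_of_nonneg_right h2 (by positivity)
    _ = 4 * (i : ℝ) ^ (-(η / 4)) := by
        rw [mul_assoc, ← Real.rpow_add (by linarith)]
        congr 2
        ring

lemma pr_union {g y : ℕ} (h : g ≤ y) :
    pr y = pr g ∪ (Ioc g y).filter Nat.Prime ∧ Disjoint (pr g) ((Ioc g y).filter Nat.Prime) := by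
  unfold pr
  constructor
  · ext p
    simp only [mem_filter, mem_union, mem_Icc, mem_Ioc]
    constructor
    · rintro ⟨⟨h1, h2⟩, h3⟩
      by_cases hg : p ≤ g
      · exact Or.inl ⟨⟨h1, hg⟩, h3⟩
      · exact Or.inr ⟨⟨by omega, h2⟩, h3⟩
    · rintro (⟨⟨h1, h2⟩, h3⟩ | ⟨⟨h1, h2⟩, h3⟩)
      · exact ⟨⟨h1, by omega⟩, h3⟩
      · exact ⟨⟨h3.one_lt.le, h2⟩, h3⟩
  · rw [disjoint_left]
    intro p h1 h2
    rw [mem_filter, mem_Icc] at h1
    rw [mem_filter, mem_Ioc] at h2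
    omega

/-- bounds of one factor -/
lemma factor {z : ℂ} {r : ℝ} (hz : ‖z‖ = r) (hr : r ≤ 1 / 2) :
    Real.exp (-(2 * r)) ≤ ‖(1 - z)⁻¹‖ ∧ ‖(1 - z)⁻¹‖ ≤ Real.exp (2 * r) := by
  have hr0 : 0 ≤ r := hz ▸ norm_nonneg z
  have h1 : 1 - r ≤ ‖1 - z‖ := by
    have h2 := norm_sub_norm_le (1 : ℂ) z
    rw [norm_one, hz] at h2
    exact h2
  have h2 : ‖1 - z‖ ≤ 1 + r := by
    have h3 := norm_sub_le (1 : ℂ) z
    rw [norm_one, hz] at h3
    exact h3
  have h3 : 0 < ‖1 - z‖ := by linarith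
  rw [norm_inv]
  constructor
  · rw [Real.exp_neg]
    refine inv_anti₀ h3 (h2.trans ?_)
    have := Real.add_one_le_exp (2 * r)
    linarith
  · rw [inv_le_comm₀ h3 (Real.exp_pos _), ← Real.exp_neg]
    refine le_trans ?_ h1
    -- `exp (-2 r) ≤ 1 - r` for `0 ≤ r ≤ 1/2`
    have h4 : Real.exp (2 * r) * (1 - r) ≥ 1 := by
      have h5 := Real.add_one_le_exp (2 * r)
      have h6 : (1 + 2 * r) * (1 - r) ≥ 1 := by nlinarith
      nlinarith
    have h7 : Real.exp (-(2 * r)) * Real.exp (2 * r) = 1 := by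
      rw [← Real.exp_add]
      simp
    have h8 := Real.exp_pos (-(2 * r))
    nlinarith

end STEP

open STEP in
theorem pSTEP (hMUL : S_MUL) : S_STEP := by
  intro k η hk hη hη1 δ hδ
  -- the sum is eventually small
  have hlim : Tendsto (fun i : ℕ => 4 * (i : ℝ) ^ (-(η / 4))) atTop (𝓝 (4 * 0)) :=
    ((tendsto_rpow_neg_atTop (by positivity : 0 < η / 4)).comp
      tendsto_natCast_atTop_atTop).const_mul 4
  rw [mul_zero] at hlim
  have hlog : 0 < Real.log (1 + δ) := Real.log_pos (by linarith)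
  have hpos : 0 < min (min δ (Real.log (1 + δ) / (4 * k))) (1 / 2) := by
    refine lt_min (lt_min hδ (by positivity)) (by norm_num)
  obtain ⟨i₀, hi₀⟩ := (hlim.eventually (gt_mem_nhds hpos)).exists_forall_of_atTop
  refine ⟨max i₀ 4, fun i hi y hgy hy => ?_⟩
  have hi4 : 4 ≤ i := (le_max_right _ _).trans hi
  have hi1 : 1 ≤ i := by omega
  have hsmall := hi₀ i ((le_max_left _ _).trans hi)
  have hsum := sum_le hη hη1 hi1 hy
  set Sr : ℝ := ∑ n ∈ Ioc (gr η i) y, (n : ℝ) ^ (-(1 / 2 : ℝ)) with hS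
  have hSδ : Sr ≤ δ := by
    have := min_le_left (min δ (Real.log (1 + δ) / (4 * k))) (1 / 2)
    have := min_le_left δ (Real.log (1 + δ) / (4 * k))
    linarith
  have hSl : Sr ≤ Real.log (1 + δ) / (4 * k) := by
    have := min_le_left (min δ (Real.log (1 + δ) / (4 * k))) (1 / 2)
    have := min_le_right δ (Real.log (1 + δ) / (4 * k))
    linarith
  have hS0 : 0 ≤ Sr := Finset.sum_nonneg fun n _ => by positivity
  have hi4R : (4 : ℝ) ≤ i := by exact_mod_cast hi4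
  refine ⟨fun θ t => ?_, ?_⟩
  · obtain ⟨hpr, hdis⟩ := pr_union hgy
    have hEU : EU θ y t = EU θ (gr η i) t *
        ∏ p ∈ (Ioc (gr η i) y).filter Nat.Prime, (1 - zp θ t p)⁻¹ := by
      unfold EU
      rw [hpr, prod_union hdis]
    set Q : ℝ := ∏ p ∈ (Ioc (gr η i) y).filter Nat.Prime, ‖(1 - zp θ t p)⁻¹‖ with hQ
    have hEUn : ‖EU θ y t‖ = ‖EU θ (gr η i) t‖ * Q := by
      rw [hEU, norm_mul, norm_prod]
    -- every factor
    have hfac : ∀ p ∈ (Ioc (gr η i) y).filter Nat.Prime,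
        Real.exp (-(2 * (p : ℝ) ^ (-(1 / 2 : ℝ)))) ≤ ‖(1 - zp θ t p)⁻¹‖ ∧
          ‖(1 - zp θ t p)⁻¹‖ ≤ Real.exp (2 * (p : ℝ) ^ (-(1 / 2 : ℝ))) := by
      intro p hp
      rw [mem_filter, mem_Ioc] at hp
      refine factor (norm_zp hMUL θ t hp.2.pos) ?_
      -- `p ≥ 4`
      have h2 : (4 : ℝ) ≤ p := by
        have h3 : (i : ℝ) ^ (2 - η / 2) < (gr η i : ℝ) + 1 := by
          unfold gr
          exact Nat.lt_floor_add_one _
        have h4 : (gr η i : ℝ) + 1 ≤ p := by exact_mod_cast hp.1.1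
        have h5 : (i : ℝ) ≤ (i : ℝ) ^ (2 - η / 2) := by
          conv_lhs => rw [← Real.rpow_one (i : ℝ)]
          exact Real.rpow_le_rpow_of_exponent_le (by linarith) (by linarith)
        linarith
      have h3 : (p : ℝ) ^ (-(1 / 2 : ℝ)) ≤ (4 : ℝ) ^ (-(1 / 2 : ℝ)) :=
        Real.rpow_le_rpow_of_nonpos (by norm_num) h2 (by norm_num)
      refine h3.trans (le_of_eq ?_)
      rw [Real.rpow_neg (by norm_num), ← Real.sqrt_eq_rpow,
        show (4 : ℝ) = 2 ^ 2 by norm_num, Real.sqrt_sq (by norm_num)]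
      norm_num
    have hsub : ∑ p ∈ (Ioc (gr η i) y).filter Nat.Prime, (p : ℝ) ^ (-(1 / 2 : ℝ)) ≤ Sr :=
      Finset.sum_le_sum_of_subset_of_nonneg (filter_subset _ _) fun n _ _ => by positivity
    have hQu : Q ≤ Real.exp (2 * Sr) := by
      rw [hQ]
      refine (Finset.prod_le_prod (fun p _ => norm_nonneg _) fun p hp => (hfac p hp).2).trans ?_
      rw [← Real.exp_sum, ← mul_sum]
      exact Real.exp_le_exp.2 (by linarith)
    have hQl : Real.exp (-(2 * Sr)) ≤ Q := by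
      rw [hQ]
      refine le_trans ?_
        (Finset.prod_le_prod (fun p _ => (Real.exp_pos _).le) fun p hp => (hfac p hp).1)
      rw [← Real.exp_sum, Finset.sum_neg_distrib, ← mul_sum]
      exact Real.exp_le_exp.2 (by linarith)
    have hQ0 : 0 < Q := (Real.exp_pos _).trans_le hQl
    have h4k : 4 * k * Sr ≤ Real.log (1 + δ) := by
      have := mul_le_mul_of_nonneg_left hSl (by positivity : 0 ≤ 4 * k)
      rwa [mul_div_cancel₀ _ (by positivity : (4 * k) ≠ 0)] at this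
    have hexp : Real.exp (4 * k * Sr) ≤ 1 + δ := by
      rw [← Real.exp_log (by linarith : 0 < 1 + δ)]
      exact Real.exp_le_exp.2 h4k
    have hQku : Q ^ (2 * k) ≤ 1 + δ := by
      refine le_trans (Real.rpow_le_rpow hQ0.le hQu (by positivity)) ?_
      rw [← Real.exp_mul, show 2 * Sr * (2 * k) = 4 * k * Sr by ring]
      exact hexp
    have hQkl : 1 ≤ (1 + δ) * Q ^ (2 * k) := by
      have h1 : Real.exp (-(4 * k * Sr)) ≤ Q ^ (2 * k) := by
        refine le_trans (le_of_eq ?_) (Real.rpow_le_rpow (Real.exp_pos _).le hQl (by positivity))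
        rw [← Real.exp_mul]
        congr 1
        ring
      have h2 : Real.exp (-(4 * k * Sr)) * Real.exp (4 * k * Sr) = 1 := by
        rw [← Real.exp_add]
        simp
      have h3 := Real.exp_pos (-(4 * k * Sr))
      nlinarith
    have hE0 : 0 ≤ ‖EU θ (gr η i) t‖ ^ (2 * k) := by positivity
    rw [hEUn, Real.mul_rpow (norm_nonneg _) hQ0.le]
    constructor
    · nlinarith
    · nlinarith
  · refine le_trans (Finset.sum_le_sum fun n hn => ?_) hSδ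
    rw [mem_Ioc] at hn
    have hn1 : (1 : ℝ) ≤ n := by
      have : 1 ≤ n := by omega
      exact_mod_cast this
    rw [one_div, ← Real.rpow_neg_one]
    exact Real.rpow_le_rpow_of_exponent_le hn1 (by norm_num)

end Pool.Agent.T2H98.EP
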