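import Pool.Agent.T2H98.EP.Stm
import Pool.Agent.H306R2.Arith

set_option autoImplicit false

open MeasureTheory Filter Topology Finset

namespace Pool.Agent.T2H98.EP

namespace SUB

open Pool.Agent.H306R2

theorem lc_add_le {κ : ℝ} (hκ : 1 ≤ κ) (a b : ℕ) : lc κ (a + b) ≤ lc κ a * lc κ b := by
  have h0 : (0 : ℝ) ≤ κ := by linarith
  induction b with
  | zero => rw [Nat.add_zero, lc_zero, mul_one]
  | succ b ih =>
    rw [← Nat.add_assoc, lc_succ, lc_succ κ b, ← mul_assoc]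
    have ha : (0 : ℝ) ≤ a := Nat.cast_nonneg a
    have hb : (0 : ℝ) ≤ b := Nat.cast_nonneg b
    have h1 : (κ + ((a + b : ℕ) : ℝ)) / (((a + b : ℕ) : ℝ) + 1) ≤ (κ + b) / ((b : ℝ) + 1) := by
      rw [div_le_div_iff₀ (by positivity) (by positivity)]
      push_cast
      nlinarith [mul_nonneg ha (sub_nonneg.2 hκ)]
    exact mul_le_mul ih h1 (by positivity) (mul_nonneg (lc_nonneg h0 a) (lc_nonneg h0 b))

theorem dv_eq_prod (κ : ℝ) {n : ℕ} (hn : n ≠ 0) {S : Finset ℕ} (hS : n.primeFactors ⊆ S) :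
    dv κ n = ∏ p ∈ S, lc κ (n.factorization p) := by
  unfold dv
  rw [if_neg hn]
  refine Finsupp.prod_of_support_subset _ ?_ _ ?_
  · rw [Nat.support_factorization]
    exact hS
  · intro p _
    exact lc_zero κ

end SUB

open SUB Pool.Agent.H306R2 in
theorem pSUB : S_SUB := by
  refine ⟨fun κ a b hκ ha hb => ?_, fun k κ n hk h => ⟨dv_nonneg hk.le n, dv_mono hk.le h n⟩⟩
  have h0 : (0 : ℝ) ≤ κ := by linarith
  have ha0 : a ≠ 0 := by omega
  have hb0 : b ≠ 0 := by omega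
  have hab : a * b ≠ 0 := mul_ne_zero ha0 hb0
  rw [dv_eq_prod κ hab (Finset.Subset.refl _),
    dv_eq_prod κ ha0 (S := (a * b).primeFactors) (Nat.primeFactors_mono (dvd_mul_right a b) hab),
    dv_eq_prod κ hb0 (S := (a * b).primeFactors) (Nat.primeFactors_mono (dvd_mul_left b a) hab),
    ← Finset.prod_mul_distrib]
  refine Finset.prod_le_prod (fun p _ => lc_nonneg h0 _) fun p _ => ?_
  rw [Nat.factorization_mul ha0 hb0, Finsupp.add_apply]
  exact lc_add_le hκ _ _

end Pool.Agent.T2H98.EP
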