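import Pool.Agent.T2H98.EP.Stm
import Pool.Agent.H306R2.Arith

set_option autoImplicit false

open MeasureTheory Filter Topology Finset

namespace Pool.Agent.T2H98.EP

open Pool.Agent.T2H98.RT (P tw ph D QS quads S_MUL S_OR S_VAR1 S_AE)
open Pool.Agent.H306R2 (lc dv aF)

namespace TP

/-- the summand -/
noncomputable def h (θ : ℕ → ℝ) (k t : ℝ) (m : ℕ) : ℂ :=
  ((dv k m / Real.sqrt m : ℝ) : ℂ) * tw θ m * Complex.exp (-(t * Real.log m * Complex.I))

lemma h_zero (θ : ℕ → ℝ) (k t : ℝ) : h θ k t 0 = 0 := by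
  unfold h
  have : dv k 0 = 0 := by simp [dv]
  rw [this]
  simp

/-- as an arithmetic function -/
noncomputable def hA (θ : ℕ → ℝ) (k t : ℝ) : ArithmeticFunction ℂ := ⟨h θ k t, h_zero θ k t⟩

lemma hA_apply (θ : ℕ → ℝ) (k t : ℝ) (n : ℕ) : hA θ k t n = h θ k t n := rfl

lemma dv_mul (k : ℝ) {m n : ℕ} (hmn : m.Coprime n) : dv k (m * n) = dv k m * dv k n := by
  have := (Pool.Agent.H306R2.dA_mult k).map_mul_of_coprime hmn
  simpa [Pool.Agent.H306R2.dA_apply] using this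

lemma hA_mult (hM : S_MUL) (θ : ℕ → ℝ) (k t : ℝ) : (hA θ k t).IsMultiplicative := by
  obtain ⟨hm, _, h1, _⟩ := hM
  rw [ArithmeticFunction.IsMultiplicative.iff_ne_zero]
  refine ⟨?_, fun {m n} hm0 hn0 hmn => ?_⟩
  · rw [hA_apply]
    unfold h
    rw [Pool.Agent.H306R2.dv_one, h1]
    simp
  · simp only [hA_apply, h]
    have hm1 : (0 : ℝ) < m := by exact_mod_cast Nat.pos_of_ne_zero hm0
    have hn1 : (0 : ℝ) < n := by exact_mod_cast Nat.pos_of_ne_zero hn0
    rw [dv_mul k hmn, hm θ m n hm0 hn0]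
    have e1 : Real.sqrt ((m * n : ℕ) : ℝ) = Real.sqrt m * Real.sqrt n := by
      push_cast
      exact Real.sqrt_mul hm1.le _
    have e2 : Real.log ((m * n : ℕ) : ℝ) = Real.log m + Real.log n := by
      push_cast
      exact Real.log_mul hm1.ne' hn1.ne'
    have e3 : Complex.exp (-(t * Real.log ((m * n : ℕ) : ℝ) * Complex.I)) =
        Complex.exp (-(t * Real.log m * Complex.I)) * Complex.exp (-(t * Real.log n * Complex.I)) := by
      rw [e2, ← Complex.exp_add]
      congr 1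
      push_cast
      ring
    rw [e3, e1]
    have e4 : ((dv k m * dv k n / (Real.sqrt m * Real.sqrt n) : ℝ) : ℂ) =
        ((dv k m / Real.sqrt m : ℝ) : ℂ) * ((dv k n / Real.sqrt n : ℝ) : ℂ) := by
      rw [← Complex.ofReal_mul]
      congr 1
      rw [mul_div_mul_comm]
    rw [e4]
    ring

lemma tw_pow (hM : S_MUL) (θ : ℕ → ℝ) {p : ℕ} (hp : p ≠ 0) (m : ℕ) : tw θ (p ^ m) = tw θ p ^ m := by
  induction m with
  | zero => rw [pow_zero, pow_zero, hM.2.2.1]
  | succ m ih => rw [pow_succ, hM.1 θ _ _ (pow_ne_zero _ hp) hp, ih, pow_succ]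

lemma zp_eq (θ : ℕ → ℝ) (t : ℝ) {p : ℕ} (hp : 0 < p) :
    zp θ t p = tw θ p * ((1 / Real.sqrt p : ℝ) : ℂ) * Complex.exp (-(t * Real.log p * Complex.I)) := by
  unfold zp
  have hp0 : (0 : ℝ) < p := by exact_mod_cast hp
  have hpc : (p : ℂ) ≠ 0 := by exact_mod_cast hp.ne'
  rw [mul_assoc]
  congr 1
  rw [sub_eq_add_neg, Complex.cpow_add _ _ hpc]
  congr 1
  · have h1 : (1 / Real.sqrt p : ℝ) = (p : ℝ) ^ (-(1 / 2) : ℝ) := by
      rw [Real.rpow_neg hp0.le, Real.sqrt_eq_rpow, one_div]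
    rw [h1, Complex.ofReal_cpow hp0.le]
    push_cast
    rfl
  · rw [Complex.cpow_def_of_ne_zero hpc]
    congr 1
    have h2 : Complex.log (p : ℂ) = ((Real.log p : ℝ) : ℂ) := by
      rw [Complex.ofReal_log hp0.le]
      norm_num
    rw [h2]
    ring

lemma h_pow (hM : S_MUL) (θ : ℕ → ℝ) (k t : ℝ) {p : ℕ} (hp : p.Prime) (m : ℕ) :
    h θ k t (p ^ m) = (lc k m : ℂ) * zp θ t p ^ m := by
  have hp0 : (0 : ℝ) < p := by exact_mod_cast hp.pos
  unfold h
  rw [Pool.Agent.H306R2.dv_prime_pow k hp, tw_pow hM θ hp.ne_zero, zp_eq θ t hp.pos, mul_pow, mul_pow, ← Complex.exp_nat_mul]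
  have e1 : Real.sqrt ((p ^ m : ℕ) : ℝ) = Real.sqrt p ^ m := by
    push_cast
    induction m with
    | zero => simp
    | succ m ih => rw [pow_succ, pow_succ, Real.sqrt_mul (by positivity), ih]
  have e2 : Real.log ((p ^ m : ℕ) : ℝ) = m * Real.log p := by
    push_cast
    exact Real.log_pow _ _
  rw [e1, e2]
  have e3 : ((lc k m / Real.sqrt p ^ m : ℝ) : ℂ) = (lc k m : ℂ) * ((1 / Real.sqrt p : ℝ) : ℂ) ^ m := by
    rw [← Complex.ofReal_pow, ← Complex.ofReal_mul]
    congr 1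
    rw [div_pow, one_pow]
    ring
  rw [e3]
  have e4 : -((t : ℂ) * ((m * Real.log p : ℝ) : ℂ) * Complex.I) = (m : ℂ) * (-(t * Real.log p * Complex.I)) := by
    push_cast
    ring
  rw [e4]
  ring

lemma MK_pos (y K : ℕ) : 0 < MK y K := by
  unfold MK
  exact prod_pos fun p hp => pow_pos (mem_filter.1 hp).2.pos _

end TP

theorem pTP (hMUL : S_MUL) : S_TP := by
  intro θ k y K t hk
  have h1 : D θ (cK k y K) (MK y K) t = ∑ d ∈ (MK y K).divisors, TP.hA θ k t d := by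
    unfold D
    rw [Nat.divisors, sum_filter]
    refine sum_congr ?_ fun m _ => ?_
    · ext m
      simp only [mem_Icc, mem_Ico]
      omega
    · rw [TP.hA_apply]
      unfold cK TP.h
      split_ifs with hd
      · rfl
      · simp
  have h2 : ((TP.hA θ k t) * (ArithmeticFunction.zeta : ArithmeticFunction ℂ)) (MK y K) =
      ∑ d ∈ (MK y K).divisors, TP.hA θ k t d := ArithmeticFunction.coe_mul_zeta_apply
  have h3 : ((TP.hA θ k t) * (ArithmeticFunction.zeta : ArithmeticFunction ℂ)).IsMultiplicative :=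
    (TP.hA_mult hMUL θ k t).mul ArithmeticFunction.isMultiplicative_zeta.natCast
  rw [h1, ← h2]
  unfold MK
  rw [h3.map_prod (fun p => p ^ K)]
  · refine prod_congr rfl fun p hp => ?_
    have hp1 : p.Prime := (mem_filter.1 hp).2
    rw [ArithmeticFunction.coe_mul_zeta_apply, Nat.divisors_prime_pow hp1, sum_map]
    refine sum_congr rfl fun m _ => ?_
    simp only [Function.Embedding.coeFn_mk]
    rw [TP.hA_apply, TP.h_pow hMUL θ k t hp1]
  · intro p hp q hq hpq
    have hp1 : p.Prime := (mem_filter.1 (mem_coe.1 hp)).2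
    have hq1 : q.Prime := (mem_filter.1 (mem_coe.1 hq)).2
    exact Nat.Coprime.pow _ _ ((Nat.coprime_primes hp1 hq1).2 hpq)

end Pool.Agent.T2H98.EP
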