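import Pool.Agent.T2H98.EP.Stm

/-! Project EP, package VARL. -/

set_option autoImplicit false

open MeasureTheory Filter Topology Finset

namespace Pool.Agent.T2H98.EP

open Pool.Agent.T2H98.RT (P tw ph D QS quads S_MUL S_OR S_VAR1 S_AE)
open Pool.Agent.H306R2 (lc dv aF)

namespace VARL

theorem lc_nn {k : ℝ} (hk : 0 < k) (m : ℕ) : 0 ≤ lc k m :=
  Finset.prod_nonneg fun i _ => by positivity

theorem dv_nn {k : ℝ} (hk : 0 < k) (n : ℕ) : 0 ≤ dv k n := by
  unfold dv
  split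
  · exact le_rfl
  · exact Finset.prod_nonneg fun p _ => lc_nn hk _

theorem cK_nn {k : ℝ} (hk : 0 < k) (y K m : ℕ) : 0 ≤ cK k y K m := by
  unfold cK
  split
  · exact div_nonneg (dv_nn hk m) (Real.sqrt_nonneg _)
  · exact le_rfl

theorem D_cont_t (θ : ℕ → ℝ) (c : ℕ → ℝ) (M : ℕ) : Continuous (fun t : ℝ => D θ c M t) := by
  unfold D
  refine continuous_finsetSum _ fun n hn => ?_
  fun_prop

theorem D_cont_θ (hMUL : S_MUL) (t : ℝ) (c : ℕ → ℝ) (M : ℕ) : Continuous (fun θ : ℕ → ℝ => D θ c M t) := by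
  unfold D
  refine continuous_finsetSum _ fun n hn => ?_
  exact (continuous_const.mul (hMUL.2.2.2 n)).mul continuous_const

end VARL

theorem pVARL (hMUL : S_MUL) (hVAR1 : S_VAR1) (hJME : S_JME) (hTP : S_TP) (hCV : S_CV) (hSUMC : S_SUMC) :
    S_VARL := by
  intro k y T B hk hT hQ
  obtain ⟨B₁, hB₁, hE1, hE2, hE3⟩ := hJME k y hk
  obtain ⟨hJc, hJb⟩ := hE3 T hT
  set X : (ℕ → ℝ) → ℝ := fun θ => JE θ k y T - AA k y with hX
  set Y : ℕ → (ℕ → ℝ) → ℝ := fun K θ => 1 / T * (∫ t in (0:ℝ)..T, ‖D θ (cK k y K) (MK y K) t‖ ^ 2) -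
    ∑ m ∈ Icc 1 (MK y K), cK k y K m ^ 2 with hY
  have hXc : Continuous X := hJc.sub continuous_const
  set M := B₁ + |AA k y| with hM
  have hM0 : 0 ≤ M := by positivity
  have hXb : ∀ θ, |X θ| ≤ M := by
    intro θ
    have h1 := (hJb θ).1
    have h2 := (hJb θ).2
    have h3 : |JE θ k y T| ≤ B₁ := by rw [abs_of_nonneg h1]; exact h2
    exact (abs_sub _ _).trans (add_le_add h3 le_rfl)
  -- closeness
  have hclose : ∀ ε : ℝ, 0 < ε → ∃ K : ℕ, ∀ θ, |Y K θ - X θ| ≤ 2 * ε := by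
    intro ε hε
    obtain ⟨K₀, hK₀⟩ := hCV k y hk ε hε
    have h1 : ∀ᶠ K : ℕ in atTop, |∑ m ∈ Icc 1 (MK y K), cK k y K m ^ 2 - AA k y| ≤ ε := by
      have := Metric.tendsto_nhds.mp (hSUMC k y hk) ε hε
      filter_upwards [this] with K hK
      rw [Real.dist_eq] at hK
      exact hK.le
    obtain ⟨K, hK1, hK2⟩ := (h1.and (eventually_ge_atTop K₀)).exists
    refine ⟨K, fun θ => ?_⟩
    have h3 : ∀ t : ℝ, |‖D θ (cK k y K) (MK y K) t‖ ^ 2 - ‖EU θ y t‖ ^ (2 * k)| ≤ ε := by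
      intro t
      rw [← hTP θ k y K t hk]
      exact hK₀ K hK2 θ t
    have i1 : IntervalIntegrable (fun t => ‖D θ (cK k y K) (MK y K) t‖ ^ 2) volume 0 T :=
      ((VARL.D_cont_t θ _ _).norm.pow 2).intervalIntegrable _ _
    have i2 : IntervalIntegrable (fun t => ‖EU θ y t‖ ^ (2 * k)) volume 0 T := (hE2 θ).intervalIntegrable _ _
    have h4 : |1 / T * (∫ t in (0:ℝ)..T, ‖D θ (cK k y K) (MK y K) t‖ ^ 2) - JE θ k y T| ≤ ε := by
      rw [JE, ← mul_sub, ← intervalIntegral.integral_sub i1 i2, abs_mul, abs_of_pos (by positivity : 0 < 1 / T)]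
      have h5 := intervalIntegral.norm_integral_le_of_norm_le_const (a := 0) (b := T)
        (f := fun t => ‖D θ (cK k y K) (MK y K) t‖ ^ 2 - ‖EU θ y t‖ ^ (2 * k)) (C := ε) (fun t _ => by
          rw [Real.norm_eq_abs]
          exact h3 t)
      rw [Real.norm_eq_abs, sub_zero, abs_of_pos hT] at h5
      calc 1 / T * |∫ t in (0:ℝ)..T, (‖D θ (cK k y K) (MK y K) t‖ ^ 2 - ‖EU θ y t‖ ^ (2 * k))| ≤ 1 / T * (ε * T) :=
            mul_le_mul_of_nonneg_left h5 (by positivity)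
        _ = ε := by field_simp
    have e : Y K θ - X θ = (1 / T * (∫ t in (0:ℝ)..T, ‖D θ (cK k y K) (MK y K) t‖ ^ 2) - JE θ k y T) -
        (∑ m ∈ Icc 1 (MK y K), cK k y K m ^ 2 - AA k y) := by
      simp only [hX, hY]
      ring
    rw [e]
    refine (abs_sub _ _).trans ?_
    linarith
  have hYc : ∀ K, Continuous (Y K) := by
    intro K
    refine Continuous.sub (continuous_const.mul ?_) continuous_const
    refine intervalIntegral.continuous_of_dominated_interval
      (bound := fun _ => (∑ m ∈ Icc 1 (MK y K), cK k y K m) ^ 2) ?_ ?_ ?_ ?_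
    · intro θ
      exact ((VARL.D_cont_t θ _ _).norm.pow _).aestronglyMeasurable
    · intro θ
      refine Eventually.of_forall fun t _ => ?_
      rw [Real.norm_eq_abs, abs_of_nonneg (by positivity)]
      apply pow_le_pow_left₀ (norm_nonneg _)
      unfold D
      refine (norm_sum_le _ _).trans (Finset.sum_le_sum fun m _ => ?_)
      rw [norm_mul, norm_mul, hMUL.2.1 θ m, mul_one, Complex.norm_real, Real.norm_eq_abs,
        abs_of_nonneg (VARL.cK_nn hk y K m)]
      have : ‖Complex.exp (-(t * Real.log m * Complex.I))‖ = 1 := by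
        have h1 : -((t : ℂ) * Real.log m * Complex.I) = ((-(t * Real.log m) : ℝ) : ℂ) * Complex.I := by
          push_cast
          ring
        rw [h1, Complex.norm_exp_ofReal_mul_I]
      rw [this, mul_one]
    · exact intervalIntegrable_const
    · refine Eventually.of_forall fun t _ => ?_
      exact (VARL.D_cont_θ hMUL t _ _).norm.pow _
  -- conclusion
  apply le_of_forall_pos_le_add
  intro δ hδ
  set ε := min 1 (δ / (4 * (M + 1))) with hε
  have hε0 : 0 < ε := lt_min one_pos (by positivity)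
  have hε1 : ε ≤ 1 := min_le_left _ _
  have hε2 : 4 * ε * (M + 1) ≤ δ := by
    have h1 : ε ≤ δ / (4 * (M + 1)) := min_le_right _ _
    rw [le_div_iff₀ (by positivity)] at h1
    linarith
  obtain ⟨K, hK⟩ := hclose ε hε0
  have hpt : ∀ θ, X θ ^ 2 ≤ Y K θ ^ 2 + 4 * ε * (M + 1) := by
    intro θ
    have h1 := hK θ
    have h2 := hXb θ
    have h3 : X θ ^ 2 - Y K θ ^ 2 = -(Y K θ - X θ) * (2 * X θ) - (Y K θ - X θ) ^ 2 := by ring
    have h4 : -(Y K θ - X θ) * (2 * X θ) ≤ |Y K θ - X θ| * (2 * |X θ|) := by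
      calc -(Y K θ - X θ) * (2 * X θ) ≤ |-(Y K θ - X θ) * (2 * X θ)| := le_abs_self _
        _ = |Y K θ - X θ| * (2 * |X θ|) := by
          rw [abs_mul, abs_neg, abs_mul, abs_of_pos (show (0:ℝ) < 2 by norm_num)]
    have h5 : |Y K θ - X θ| * (2 * |X θ|) ≤ 2 * ε * (2 * M) :=
      mul_le_mul h1 (by linarith) (by positivity) (by positivity)
    have h6 := sq_nonneg (Y K θ - X θ)
    nlinarith
  have iX : Integrable (fun θ => X θ ^ 2) P := by
    refine Integrable.mono' (integrable_const (M ^ 2)) (hXc.pow 2).aestronglyMeasurable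
      (Eventually.of_forall fun θ => ?_)
    rw [Real.norm_eq_abs, abs_pow]
    exact pow_le_pow_left₀ (abs_nonneg _) (hXb θ) 2
  have iY : Integrable (fun θ => Y K θ ^ 2) P := by
    refine Integrable.mono' (integrable_const ((M + 2 * ε) ^ 2)) ((hYc K).pow 2).aestronglyMeasurable
      (Eventually.of_forall fun θ => ?_)
    rw [Real.norm_eq_abs, abs_pow]
    refine pow_le_pow_left₀ (abs_nonneg _) ?_ 2
    have e : Y K θ = X θ + (Y K θ - X θ) := by ring
    rw [e]
    exact (abs_add_le _ _).trans (add_le_add (hXb θ) (hK θ))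
  calc ∫ θ, (JE θ k y T - AA k y) ^ 2 ∂P = ∫ θ, X θ ^ 2 ∂P := rfl
    _ ≤ ∫ θ, (Y K θ ^ 2 + 4 * ε * (M + 1)) ∂P := integral_mono iX (iY.add (integrable_const _)) hpt
    _ = (∫ θ, Y K θ ^ 2 ∂P) + 4 * ε * (M + 1) := by
        rw [integral_add iY (integrable_const _), integral_const]
        simp
    _ ≤ 2 / T * B + δ := by
        have h1 := hVAR1 (cK k y K) (MK y K) T (VARL.cK_nn hk y K) hT
        have h2 : 2 / T * QS (cK k y K) (MK y K) ≤ 2 / T * B := mul_le_mul_of_nonneg_left (hQ K) (by positivity)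
        have h3 : (∫ θ, Y K θ ^ 2 ∂P) ≤ 2 / T * B := h1.trans h2
        linarith

end Pool.Agent.T2H98.EP
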