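import Pool.Agent.T2H98.EP.Stm

set_option autoImplicit false

open MeasureTheory Filter Topology Finset

namespace Pool.Agent.T2H98.EP

namespace WB

/-- the far pairs -/
lemma far (w : ℕ → ℝ) (hw : ∀ n, 0 ≤ w n) (r s : ℕ) (hr : 1 ≤ r) (hs : 1 ≤ s) (h : 2 * s ≤ r ∨ 2 * r ≤ s) :
    w r * w s / ((r : ℝ) * s * |Real.log r - Real.log s|) ≤ 2 * (w r / r * (w s / s)) := by
  have hr0 : (0 : ℝ) < r := by exact_mod_cast hr
  have hs0 : (0 : ℝ) < s := by exact_mod_cast hs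
  have hlog : (1 / 2 : ℝ) ≤ |Real.log r - Real.log s| := by
    have hl2 : (1 / 2 : ℝ) ≤ Real.log 2 := by linarith [Real.log_two_gt_d9]
    rcases h with h | h
    · have h1 : (2 : ℝ) * s ≤ r := by exact_mod_cast h
      have h2 : Real.log (2 * s) ≤ Real.log r := Real.log_le_log (by positivity) h1
      rw [Real.log_mul (by norm_num) hs0.ne'] at h2
      exact le_trans (by linarith) (le_abs_self _)
    · have h1 : (2 : ℝ) * r ≤ s := by exact_mod_cast h
      have h2 : Real.log (2 * r) ≤ Real.log s := Real.log_le_log (by positivity) h1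
      rw [Real.log_mul (by norm_num) hr0.ne'] at h2
      rw [abs_sub_comm]
      exact le_trans (by linarith) (le_abs_self _)
  have hwr := hw r
  have hws := hw s
  calc w r * w s / ((r : ℝ) * s * |Real.log r - Real.log s|) ≤ w r * w s / ((r : ℝ) * s * (1 / 2)) := by gcongr
    _ = 2 * (w r / r * (w s / s)) := by field_simp

/-- the near pairs, `s < r < 2 s` -/
lemma near (w : ℕ → ℝ) (r s : ℕ) (hs : 1 ≤ s) (h : s < r) (hw : ∀ n, 0 ≤ w n) :
    w r * w s / ((r : ℝ) * s * |Real.log r - Real.log s|) ≤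
      (w r ^ 2 + w s ^ 2) / (2 * (s : ℝ) * ((r : ℝ) - s)) := by
  have hs0 : (0 : ℝ) < s := by exact_mod_cast hs
  have hrs : (s : ℝ) < r := by exact_mod_cast h
  have hr0 : (0 : ℝ) < r := by linarith
  have hd : 0 < (r : ℝ) - s := by linarith
  have h1 : ((r : ℝ) - s) / r ≤ |Real.log r - Real.log s| := by
    have h2 : Real.log ((s : ℝ) / r) ≤ (s : ℝ) / r - 1 := Real.log_le_sub_one_of_pos (by positivity)
    rw [Real.log_div hs0.ne' hr0.ne'] at h2
    have h3 : ((r : ℝ) - s) / r = 1 - (s : ℝ) / r := by field_simp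
    rw [h3]
    exact le_trans (by linarith) (le_abs_self _)
  have h4 : w r * w s ≤ (w r ^ 2 + w s ^ 2) / 2 := by nlinarith [sq_nonneg (w r - w s)]
  have h5 : 0 ≤ w r * w s := mul_nonneg (hw r) (hw s)
  calc w r * w s / ((r : ℝ) * s * |Real.log r - Real.log s|)
      ≤ w r * w s / ((r : ℝ) * s * (((r : ℝ) - s) / r)) := by gcongr
    _ = w r * w s / ((s : ℝ) * ((r : ℝ) - s)) := by
        congr 1
        field_simp
    _ ≤ ((w r ^ 2 + w s ^ 2) / 2) / ((s : ℝ) * ((r : ℝ) - s)) := by gcongr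
    _ = (w r ^ 2 + w s ^ 2) / (2 * (s : ℝ) * ((r : ℝ) - s)) := by
        rw [div_div]
        congr 1
        ring

/-- harmonic sums -/
lemma harm (n : ℕ) (hn : 1 ≤ n) : ∑ h ∈ Icc 1 n, 1 / (h : ℝ) ≤ 1 + Real.log n := by
  have h1 := harmonic_le_one_add_log n
  have h2 : ((harmonic n : ℚ) : ℝ) = ∑ h ∈ Icc 1 n, 1 / (h : ℝ) := by
    rw [harmonic_eq_sum_Icc]
    push_cast
    exact sum_congr rfl fun _ _ => by rw [one_div]
  rw [← h2]
  exact h1

/-- sum over the `s` with `s < r < 2 s` of `1 / (s (r - s))` -/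
lemma sum_lower (r : ℕ) (hr : 1 ≤ r) (U : Finset ℕ) :
    ∑ s ∈ U.filter (fun s => s < r ∧ r < 2 * s), 1 / (2 * (s : ℝ) * ((r : ℝ) - s)) ≤ (1 + Real.log r) / r := by
  have hr0 : (0 : ℝ) < r := by exact_mod_cast hr
  have h1 : ∀ s ∈ U.filter (fun s => s < r ∧ r < 2 * s), 1 / (2 * (s : ℝ) * ((r : ℝ) - s)) ≤
      1 / (r : ℝ) * (1 / ((r - s : ℕ) : ℝ)) := by
    intro s hs
    have h2 := (mem_filter.1 hs).2
    have h3 : (s : ℝ) < r := by exact_mod_cast h2.1
    have h4 : (r : ℝ) ≤ 2 * s := by exact_mod_cast h2.2.le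
    rw [Nat.cast_sub h2.1.le, one_div_mul_one_div]
    have h5 : 0 < (r : ℝ) - s := by linarith
    gcongr
  calc ∑ s ∈ U.filter (fun s => s < r ∧ r < 2 * s), 1 / (2 * (s : ℝ) * ((r : ℝ) - s))
      ≤ ∑ s ∈ U.filter (fun s => s < r ∧ r < 2 * s), 1 / (r : ℝ) * (1 / ((r - s : ℕ) : ℝ)) := sum_le_sum h1
    _ = 1 / (r : ℝ) * ∑ s ∈ U.filter (fun s => s < r ∧ r < 2 * s), (1 / ((r - s : ℕ) : ℝ)) := by rw [mul_sum]
    _ = 1 / (r : ℝ) * ∑ h ∈ (U.filter (fun s => s < r ∧ r < 2 * s)).image (fun s => r - s), (1 / (h : ℝ)) := by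
        rw [sum_image]
        intro a ha b hb hab
        have h2 := (mem_filter.1 (mem_coe.1 ha)).2
        have h3 := (mem_filter.1 (mem_coe.1 hb)).2
        simp only at hab
        omega
    _ ≤ 1 / (r : ℝ) * ∑ h ∈ Icc 1 r, (1 / (h : ℝ)) := by
        gcongr
        intro h hh
        obtain ⟨s, hs, rfl⟩ := mem_image.1 hh
        have h2 := (mem_filter.1 hs).2
        exact mem_Icc.2 ⟨by omega, by omega⟩
    _ ≤ 1 / (r : ℝ) * (1 + Real.log r) := by
        gcongr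
        exact harm r hr
    _ = (1 + Real.log r) / r := by ring

/-- sum over the `r` with `s < r < 2 s` of `1 / (s (r - s))` -/
lemma sum_upper (s : ℕ) (hs : 1 ≤ s) (U : Finset ℕ) :
    ∑ r ∈ U.filter (fun r => s < r ∧ r < 2 * s), 1 / (2 * (s : ℝ) * ((r : ℝ) - s)) ≤ (1 + Real.log s) / s := by
  have hs0 : (0 : ℝ) < s := by exact_mod_cast hs
  have h1 : ∀ r ∈ U.filter (fun r => s < r ∧ r < 2 * s), 1 / (2 * (s : ℝ) * ((r : ℝ) - s)) ≤
      1 / (s : ℝ) * (1 / ((r - s : ℕ) : ℝ)) := by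
    intro r hr
    have h2 := (mem_filter.1 hr).2
    have h3 : (s : ℝ) < r := by exact_mod_cast h2.1
    rw [Nat.cast_sub h2.1.le, one_div_mul_one_div]
    have h5 : 0 < (r : ℝ) - s := by linarith
    gcongr
    linarith
  calc ∑ r ∈ U.filter (fun r => s < r ∧ r < 2 * s), 1 / (2 * (s : ℝ) * ((r : ℝ) - s))
      ≤ ∑ r ∈ U.filter (fun r => s < r ∧ r < 2 * s), 1 / (s : ℝ) * (1 / ((r - s : ℕ) : ℝ)) := sum_le_sum h1
    _ = 1 / (s : ℝ) * ∑ r ∈ U.filter (fun r => s < r ∧ r < 2 * s), (1 / ((r - s : ℕ) : ℝ)) := by rw [mul_sum]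
    _ = 1 / (s : ℝ) * ∑ h ∈ (U.filter (fun r => s < r ∧ r < 2 * s)).image (fun r => r - s), (1 / (h : ℝ)) := by
        rw [sum_image]
        intro a ha b hb hab
        have h2 := (mem_filter.1 (mem_coe.1 ha)).2
        have h3 := (mem_filter.1 (mem_coe.1 hb)).2
        simp only at hab
        omega
    _ ≤ 1 / (s : ℝ) * ∑ h ∈ Icc 1 s, (1 / (h : ℝ)) := by
        gcongr
        intro h hh
        obtain ⟨r, hr, rfl⟩ := mem_image.1 hh
        have h2 := (mem_filter.1 hr).2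
        exact mem_Icc.2 ⟨by omega, by omega⟩
    _ ≤ 1 / (s : ℝ) * (1 + Real.log s) := by
        gcongr
        exact harm s hs
    _ = (1 + Real.log s) / s := by ring

/-- the near pairs with `s < r < 2 s` -/
lemma near_sum (w : ℕ → ℝ) (U : Finset ℕ) (hw : ∀ n, 0 ≤ w n) (hU : ∀ n ∈ U, 1 ≤ n) :
    ∑ q ∈ (U ×ˢ U).filter (fun q => q.2 < q.1 ∧ q.1 < 2 * q.2),
      w q.1 * w q.2 / ((q.1 : ℝ) * q.2 * |Real.log q.1 - Real.log q.2|) ≤
    2 * ∑ r ∈ U, w r ^ 2 * (1 + Real.log r) / r := by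
  have h1 : ∀ q ∈ (U ×ˢ U).filter (fun q => q.2 < q.1 ∧ q.1 < 2 * q.2),
      w q.1 * w q.2 / ((q.1 : ℝ) * q.2 * |Real.log q.1 - Real.log q.2|) ≤
      w q.1 ^ 2 * (1 / (2 * (q.2 : ℝ) * ((q.1 : ℝ) - q.2))) + w q.2 ^ 2 * (1 / (2 * (q.2 : ℝ) * ((q.1 : ℝ) - q.2))) := by
    intro q hq
    have h2 := mem_filter.1 hq
    have h3 := mem_product.1 h2.1
    refine (near w q.1 q.2 (hU _ h3.2) h2.2.1 hw).trans (le_of_eq ?_)
    ring
  refine (sum_le_sum h1).trans ?_
  rw [sum_add_distrib, two_mul]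
  refine add_le_add ?_ ?_
  · rw [sum_filter, sum_product]
    refine sum_le_sum fun r hr => ?_
    simp only
    rw [← sum_filter, ← mul_sum]
    calc w r ^ 2 * ∑ s ∈ U.filter (fun s => s < r ∧ r < 2 * s), 1 / (2 * (s : ℝ) * ((r : ℝ) - s))
        ≤ w r ^ 2 * ((1 + Real.log r) / r) := by
          gcongr
          exact sum_lower r (hU r hr) U
      _ = w r ^ 2 * (1 + Real.log r) / r := by ring
  · rw [sum_filter, sum_product_right]
    refine sum_le_sum fun s hs => ?_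
    simp only
    rw [← sum_filter, ← mul_sum]
    calc w s ^ 2 * ∑ r ∈ U.filter (fun r => s < r ∧ r < 2 * s), 1 / (2 * (s : ℝ) * ((r : ℝ) - s))
        ≤ w s ^ 2 * ((1 + Real.log s) / s) := by
          gcongr
          exact sum_upper s (hU s hs) U
      _ = w s ^ 2 * (1 + Real.log s) / s := by ring

end WB

theorem pWB : S_WB := by
  intro w U hw hU
  set F : ℕ × ℕ → ℝ := fun q => w q.1 * w q.2 / ((q.1 : ℝ) * q.2 * |Real.log q.1 - Real.log q.2|) with hF
  have hF0 : ∀ q, 0 ≤ F q := by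
    intro q
    have h1 := hw q.1
    have h2 := hw q.2
    simp only [hF]
    positivity
  set A := (U ×ˢ U).filter (fun q => 2 * q.2 ≤ q.1 ∨ 2 * q.1 ≤ q.2) with hA
  set B := (U ×ˢ U).filter (fun q => q.2 < q.1 ∧ q.1 < 2 * q.2) with hB
  set C := (U ×ˢ U).filter (fun q => q.1 < q.2 ∧ q.2 < 2 * q.1) with hC
  have hsub : (U ×ˢ U).filter (fun q => q.1 ≠ q.2) ⊆ (A ∪ B) ∪ C := by
    intro q hq
    have h1 := mem_filter.1 hq
    simp only [mem_union, hA, hB, hC, mem_filter, h1.1, true_and]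
    have := h1.2
    omega
  have h1 : ∑ q ∈ (U ×ˢ U).filter (fun q => q.1 ≠ q.2), F q ≤ (∑ q ∈ A, F q + ∑ q ∈ B, F q) + ∑ q ∈ C, F q := by
    calc ∑ q ∈ (U ×ˢ U).filter (fun q => q.1 ≠ q.2), F q ≤ ∑ q ∈ (A ∪ B) ∪ C, F q :=
          sum_le_sum_of_subset_of_nonneg hsub fun q _ _ => hF0 q
      _ ≤ ∑ q ∈ A ∪ B, F q + ∑ q ∈ C, F q := by
          have := sum_union_inter (s₁ := A ∪ B) (s₂ := C) (f := F)
          have h2 : 0 ≤ ∑ q ∈ (A ∪ B) ∩ C, F q := sum_nonneg fun q _ => hF0 q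
          linarith
      _ ≤ (∑ q ∈ A, F q + ∑ q ∈ B, F q) + ∑ q ∈ C, F q := by
          have := sum_union_inter (s₁ := A) (s₂ := B) (f := F)
          have h2 : 0 ≤ ∑ q ∈ A ∩ B, F q := sum_nonneg fun q _ => hF0 q
          linarith
  have h2 : ∑ q ∈ A, F q ≤ 2 * (∑ r ∈ U, w r / r) ^ 2 := by
    calc ∑ q ∈ A, F q ≤ ∑ q ∈ A, 2 * (w q.1 / q.1 * (w q.2 / q.2)) := by
          refine sum_le_sum fun q hq => ?_
          have h3 := mem_filter.1 hq
          have h4 := mem_product.1 h3.1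
          exact WB.far w hw q.1 q.2 (hU _ h4.1) (hU _ h4.2) h3.2
      _ ≤ ∑ q ∈ U ×ˢ U, 2 * (w q.1 / q.1 * (w q.2 / q.2)) := by
          refine sum_le_sum_of_subset_of_nonneg (filter_subset _ _) fun q _ _ => ?_
          have h1 := hw q.1
          have h2 := hw q.2
          positivity
      _ = 2 * (∑ r ∈ U, w r / r) ^ 2 := by
          rw [← mul_sum, sq, sum_mul_sum, sum_product]
  have h3 : ∑ q ∈ B, F q ≤ 2 * ∑ r ∈ U, w r ^ 2 * (1 + Real.log r) / r := WB.near_sum w U hw hU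
  have h4 : ∑ q ∈ C, F q ≤ 2 * ∑ r ∈ U, w r ^ 2 * (1 + Real.log r) / r := by
    have h5 : ∑ q ∈ C, F q = ∑ q ∈ B, F q := by
      refine sum_bij' (fun q _ => (q.2, q.1)) (fun q _ => (q.2, q.1)) ?_ ?_ ?_ ?_ ?_
      · intro q hq
        have h6 := mem_filter.1 hq
        have h7 := mem_product.1 h6.1
        exact mem_filter.2 ⟨mem_product.2 ⟨h7.2, h7.1⟩, h6.2⟩
      · intro q hq
        have h6 := mem_filter.1 hq
        have h7 := mem_product.1 h6.1
        exact mem_filter.2 ⟨mem_product.2 ⟨h7.2, h7.1⟩, h6.2⟩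
      · intro q _
        rfl
      · intro q _
        rfl
      · intro q _
        simp only [hF]
        rw [abs_sub_comm]
        ring_nf
    rw [h5]
    exact h3
  refine h1.trans ?_
  linarith

end Pool.Agent.T2H98.EP
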