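import Pool.Agent.T2H98.RT.AE
import Pool.Agent.T2H98.RT.MUL
import Pool.Agent.T2H98.RT.OR
import Pool.Agent.T2H98.RT.KAP
import Pool.Agent.T2H98.RT.VAR1
import Pool.Agent.T2H98.EP.AAL
import Pool.Agent.T2H98.EP.CV
import Pool.Agent.T2H98.EP.FINE
import Pool.Agent.T2H98.EP.GRE
import Pool.Agent.T2H98.EP.INTNE
import Pool.Agent.T2H98.EP.INTTE
import Pool.Agent.T2H98.EP.JME
import Pool.Agent.T2H98.EP.MER
import Pool.Agent.T2H98.EP.QR
import Pool.Agent.T2H98.EP.QSE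
import Pool.Agent.T2H98.EP.RK
import Pool.Agent.T2H98.EP.STEP
import Pool.Agent.T2H98.EP.SUB
import Pool.Agent.T2H98.EP.SUMC
import Pool.Agent.T2H98.EP.TP
import Pool.Agent.T2H98.EP.VARL
import Pool.Agent.T2H98.EP.WB

set_option autoImplicit false

namespace Pool.Agent.T2H98.EP

open Pool.Agent.T2H98.RT

theorem vJME : S_JME := pJME pMUL
theorem vVARL : S_VARL := pVARL pMUL (pVAR1 pMUL pOR pKAP) vJME (pTP pMUL) (pCV pMUL) pSUMC
theorem vQSE : S_QSE := pQSE (pQR pSUB) pWB pRK pSUB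
theorem vGRE : S_GRE := pGRE vVARL vQSE vJME pAE
theorem vFINE : S_FINE := pFINE vGRE (pINTTE pAAL vJME) (pINTNE (pSTEP pMUL) pAAL vJME) pMER pAAL vJME

end Pool.Agent.T2H98.EP
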