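import Pool.Agent.T2H98.EP.Stm
import Pool.Agent.H306R2.Arith

set_option autoImplicit false

open MeasureTheory Filter Topology Finset

namespace Pool.Agent.T2H98.EP

open Pool.Agent.T2H98.RT (QS)
open Pool.Agent.H306R2 (dv lc)

namespace QSE

theorem MK_pos (y K : ℕ) : 1 ≤ MK y K := by
  unfold MK
  refine Finset.one_le_prod' fun p hp => ?_
  have : p.Prime := (Finset.mem_filter.1 hp).2
  exact Nat.one_le_pow _ _ this.pos

theorem div_pos' {y K r : ℕ} (hr : r ∈ (MK y K).divisors) : 1 ≤ r :=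
  Nat.pos_of_mem_divisors hr

/-- dropping the factor `1 + log r` -/
theorem sum_le (κ : ℝ) (a y K : ℕ) (hκ : 1 ≤ κ) :
    ∑ r ∈ (MK y K).divisors, dv κ r ^ a / r ≤ ∑ r ∈ (MK y K).divisors, dv κ r ^ a * (1 + Real.log r) / r := by
  refine Finset.sum_le_sum fun r hr => ?_
  have h1 : 1 ≤ r := div_pos' hr
  have h1' : (1 : ℝ) ≤ r := by exact_mod_cast h1
  have h2 : 0 ≤ Real.log r := Real.log_nonneg h1'
  have h3 : 0 ≤ dv κ r ^ a := pow_nonneg (Pool.Agent.H306R2.dv_nonneg (by linarith) r) a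
  have h4 : (0 : ℝ) < r := by linarith
  apply div_le_div_of_nonneg_right _ h4.le
  nlinarith

end QSE

open QSE in
theorem pQSE (hQR : S_QR) (hWB : S_WB) (hRK : S_RK) (_hSUB : S_SUB) : S_QSE := by
  intro k hk
  set κ : ℝ := max k 1 with hκdef
  have hκ1 : 1 ≤ κ := le_max_right _ _
  have hkκ : k ≤ κ := le_max_left _ _
  obtain ⟨C₁, hC₁, h₁⟩ := hRK κ 2 hκ1
  obtain ⟨C₂, hC₂, h₂⟩ := hRK κ 4 hκ1
  -- QS ≤ (C₁ L^C₁)^2 (2 (C₁ L^C₁)^2 + 4 C₂ L^C₂)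
  refine ⟨C₁ ^ 2 * (2 * C₁ ^ 2 + 4 * C₂) + (4 * C₁ + C₂), by positivity, fun y K hy => ?_⟩
  set L : ℝ := Real.log y with hL
  have hy' : (3 : ℝ) ≤ y := by exact_mod_cast hy
  have hL1 : 1 ≤ L := by
    rw [hL, Real.le_log_iff_exp_le (by linarith)]
    have := Real.exp_one_lt_d9
    linarith
  have hL0 : 0 < L := by linarith
  have hnn : ∀ r, 0 ≤ dv κ r := fun r => Pool.Agent.H306R2.dv_nonneg (by linarith) r
  have e1 : ∑ g ∈ (MK y K).divisors, dv κ g ^ 2 / g ≤ C₁ * L ^ C₁ := (sum_le κ 2 y K hκ1).trans (h₁ y K hy)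
  have e10 : 0 ≤ ∑ g ∈ (MK y K).divisors, dv κ g ^ 2 / (g : ℝ) :=
    Finset.sum_nonneg fun g _ => div_nonneg (pow_nonneg (hnn g) 2) (Nat.cast_nonneg g)
  have e2 := hWB (fun n => dv κ n ^ 2) (MK y K).divisors (fun n => pow_nonneg (hnn n) 2) (fun n hn => div_pos' hn)
  have e3 : ∑ r ∈ (MK y K).divisors, (dv κ r ^ 2) ^ 2 * (1 + Real.log r) / r ≤ C₂ * L ^ C₂ := by
    refine le_trans (le_of_eq ?_) (h₂ y K hy)
    refine Finset.sum_congr rfl fun r _ => ?_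
    rw [← pow_mul]
  have hQ := hQR k κ y K hk hkκ hκ1
  beta_reduce at e2
  have e4 : ∑ q ∈ ((MK y K).divisors ×ˢ (MK y K).divisors).filter (fun q => q.1 ≠ q.2),
      dv κ q.1 ^ 2 * dv κ q.2 ^ 2 / ((q.1 : ℝ) * q.2 * |Real.log q.1 - Real.log q.2|) ≤
      2 * (C₁ * L ^ C₁) ^ 2 + 4 * (C₂ * L ^ C₂) := by
    refine e2.trans ?_
    have := pow_le_pow_left₀ e10 e1 2
    linarith
  have hLC1 : 0 < L ^ C₁ := Real.rpow_pos_of_pos hL0 _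
  have hLC2 : 0 < L ^ C₂ := Real.rpow_pos_of_pos hL0 _
  have e5 : QS (cK k y K) (MK y K) ≤ (C₁ * L ^ C₁) ^ 2 * (2 * (C₁ * L ^ C₁) ^ 2 + 4 * (C₂ * L ^ C₂)) := by
    refine hQ.trans ?_
    have h01 : 0 ≤ ∑ q ∈ ((MK y K).divisors ×ˢ (MK y K).divisors).filter (fun q => q.1 ≠ q.2),
      dv κ q.1 ^ 2 * dv κ q.2 ^ 2 / ((q.1 : ℝ) * q.2 * |Real.log q.1 - Real.log q.2|) :=
      Finset.sum_nonneg fun q _ => div_nonneg (mul_nonneg (pow_nonneg (hnn _) 2) (pow_nonneg (hnn _) 2))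
        (mul_nonneg (mul_nonneg (Nat.cast_nonneg _) (Nat.cast_nonneg _)) (abs_nonneg _))
    exact mul_le_mul (pow_le_pow_left₀ e10 e1 2) e4 h01 (by positivity)
  refine e5.trans ?_
  -- bound both powers by L^(4C₁ + C₂)
  have f1 : (L ^ C₁) ^ 4 ≤ L ^ (4 * C₁ + C₂) := by
    rw [← Real.rpow_natCast, ← Real.rpow_mul hL0.le]
    apply Real.rpow_le_rpow_of_exponent_le hL1
    push_cast
    linarith
  have f2 : (L ^ C₁) ^ 2 * L ^ C₂ ≤ L ^ (4 * C₁ + C₂) := by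
    rw [← Real.rpow_natCast, ← Real.rpow_mul hL0.le, ← Real.rpow_add hL0]
    apply Real.rpow_le_rpow_of_exponent_le hL1
    push_cast
    linarith
  have f3 : L ^ (4 * C₁ + C₂) ≤ L ^ (C₁ ^ 2 * (2 * C₁ ^ 2 + 4 * C₂) + (4 * C₁ + C₂)) := by
    apply Real.rpow_le_rpow_of_exponent_le hL1
    have : 0 ≤ C₁ ^ 2 * (2 * C₁ ^ 2 + 4 * C₂) := by positivity
    linarith
  have f4 : 0 < L ^ (4 * C₁ + C₂) := Real.rpow_pos_of_pos hL0 _
  calc (C₁ * L ^ C₁) ^ 2 * (2 * (C₁ * L ^ C₁) ^ 2 + 4 * (C₂ * L ^ C₂))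
      = 2 * C₁ ^ 4 * (L ^ C₁) ^ 4 + 4 * C₁ ^ 2 * C₂ * ((L ^ C₁) ^ 2 * L ^ C₂) := by ring
    _ ≤ 2 * C₁ ^ 4 * L ^ (4 * C₁ + C₂) + 4 * C₁ ^ 2 * C₂ * L ^ (4 * C₁ + C₂) := by
        have g1 : 0 ≤ 2 * C₁ ^ 4 := by positivity
        have g2 : 0 ≤ 4 * C₁ ^ 2 * C₂ := by positivity
        have := mul_le_mul_of_nonneg_left f1 g1
        have := mul_le_mul_of_nonneg_left f2 g2
        linarith
    _ = (C₁ ^ 2 * (2 * C₁ ^ 2 + 4 * C₂)) * L ^ (4 * C₁ + C₂) := by ring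
    _ ≤ (C₁ ^ 2 * (2 * C₁ ^ 2 + 4 * C₂) + (4 * C₁ + C₂)) * L ^ (4 * C₁ + C₂) := by
        have : 0 ≤ 4 * C₁ + C₂ := by positivity
        exact mul_le_mul_of_nonneg_right (by linarith) f4.le
    _ ≤ _ := by
        have g3 : 0 ≤ C₁ ^ 2 * (2 * C₁ ^ 2 + 4 * C₂) + (4 * C₁ + C₂) := by positivity
        exact mul_le_mul_of_nonneg_left f3 g3

end Pool.Agent.T2H98.EP
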