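import Pool.Agent.T2H98.RT.Stm
import Pool.Agent.H306R2.Defs

/-!
# Project EP (helper98): MP_973905_nt, moments of ALL real orders for almost every random twist

`f` the random completely multiplicative function with `f(p) = e^{2πiθ_p}` (project RT), `k > 0` REAL,
`EU(θ,y,t) = ∏_{p ≤ y} (1 - f(p) p^{-1/2-it})⁻¹` on the critical line.
TARGET: for every `k > 0`, for almost all `θ`, `(1/T) ∫_T^{2T} |EU|^{2k} dt = (1+o(1)) a(k) (e^γ log y)^{k²}`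
uniformly for `y → ∞`, `y ≤ T^{2-η}` (e.g. `y = T`).

Every package is INDEPENDENT (Deps are hypotheses). File `Pool/Agent/T2H98/EP/<ID>.lean`:
`import Pool.Agent.T2H98.EP.Stm`, `namespace Pool.Agent.T2H98.EP`, `theorem p<ID> (h : S_dep) .. : S_<ID>`,
own lemmas in namespace `<ID>`. Library: `Pool.Agent.H306R2.*` (`lc`, `dv`, `aF`, Arith.lean, Loc.lean, EPLim.lean),
`Pool.Agent.H305R2.MertensE` (`mertens_three`), and the finished files of `Pool.Agent.T2H98.RT`.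
-/

set_option autoImplicit false

open MeasureTheory Filter Topology Finset

namespace Pool.Agent.T2H98.EP

open Pool.Agent.T2H98.RT (P tw ph D QS quads S_MUL S_OR S_VAR1 S_AE)
open Pool.Agent.H306R2 (lc dv aF)

/-- primes up to `y` -/
def pr (y : ℕ) : Finset ℕ := (Icc 1 y).filter Nat.Prime

/-- `f(p) p^{-1/2-it}` -/
noncomputable def zp (θ : ℕ → ℝ) (t : ℝ) (p : ℕ) : ℂ := tw θ p * (p : ℂ) ^ (-(1 / 2 : ℂ) - t * Complex.I)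

/-- the twisted Euler product over `p ≤ y` at `1/2 + it` -/
noncomputable def EU (θ : ℕ → ℝ) (y : ℕ) (t : ℝ) : ℂ := ∏ p ∈ pr y, (1 - zp θ t p)⁻¹

/-- `(1/T) ∫_0^T |EU|^{2k}` -/
noncomputable def JE (θ : ℕ → ℝ) (k : ℝ) (y : ℕ) (T : ℝ) : ℝ := 1 / T * ∫ t in (0:ℝ)..T, ‖EU θ y t‖ ^ (2 * k)

/-- the mean value `∏_{p ≤ y} ∑_m lc(k,m)² p^{-m}` -/
noncomputable def AA (k : ℝ) (y : ℕ) : ℝ := ∏ p ∈ pr y, ∑' m : ℕ, lc k m ^ 2 * (1 / (p : ℝ)) ^ m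

/-- `∏_{p ≤ y} p^K` -/
def MK (y K : ℕ) : ℕ := ∏ p ∈ pr y, p ^ K

/-- coefficients `d_k(m)/√m` on the divisors of `MK` -/
noncomputable def cK (k : ℝ) (y K : ℕ) (m : ℕ) : ℝ := if m ∣ MK y K then dv k m / Real.sqrt m else 0

/-- JME (30 min, Deps: MUL). `|zp| = p^{-1/2} ≤ 2^{-1/2} < 1` for `p ≥ 2` prime, so `EU` is continuous in `(θ,t)`, nonzero and
bounded above by a constant depending on `y`. -/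
def S_JME : Prop := ∀ (k : ℝ) (y : ℕ), 0 < k → ∃ B : ℝ, 0 < B ∧
  (∀ (θ : ℕ → ℝ) (t : ℝ), 0 < ‖EU θ y t‖ ∧ ‖EU θ y t‖ ^ (2 * k) ≤ B) ∧
  (∀ θ : ℕ → ℝ, Continuous (fun t : ℝ => ‖EU θ y t‖ ^ (2 * k))) ∧
  (∀ T : ℝ, 0 < T → Continuous (fun θ : ℕ → ℝ => JE θ k y T) ∧ ∀ θ : ℕ → ℝ, 0 ≤ JE θ k y T ∧ JE θ k y T ≤ B)

/-- TP (35 min, Deps: MUL). Multiply out: the divisors of `MK y K` are the `∏ p^{e_p}`, `0 ≤ e_p ≤ K`, and the coefficient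
is multiplicative (induction over the set of primes, `Nat.divisors` of a coprime product; or `Finset.prod_sum`). -/
def S_TP : Prop := ∀ (θ : ℕ → ℝ) (k : ℝ) (y K : ℕ) (t : ℝ), 0 < k →
  ∏ p ∈ pr y, ∑ m ∈ range (K + 1), (lc k m : ℂ) * zp θ t p ^ m = D θ (cK k y K) (MK y K) t

/-- CV (35 min, Deps: MUL). Binomial series: `∑_m lc(k,m) z^m = (1-z)^{-k}` for `|z| < 1` (for complex `z` and real
`k`; e.g. `lc = Ring.choose`, Mathlib `Complex.one_add_cpow_hasSum...`, or the ODE / `lc_conv`), of absolute value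
`|1-z|^{-k}`; the tail is uniformly small for `|z| ≤ 2^{-1/2}`; finite products of uniformly convergent
bounded functions converge uniformly. -/
def S_CV : Prop := ∀ (k : ℝ) (y : ℕ), 0 < k → ∀ ε : ℝ, 0 < ε → ∃ K₀ : ℕ, ∀ K : ℕ, K₀ ≤ K → ∀ (θ : ℕ → ℝ) (t : ℝ),
  |‖∏ p ∈ pr y, ∑ m ∈ range (K + 1), (lc k m : ℂ) * zp θ t p ^ m‖ ^ 2 - ‖EU θ y t‖ ^ (2 * k)| ≤ ε

/-- SUMC (25 min, no Deps). The sum is `∏_{p ≤ y} ∑_{m ≤ K} lc(k,m)² p^{-m}` (multiplicativity as in TP). -/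
def S_SUMC : Prop := ∀ (k : ℝ) (y : ℕ), 0 < k →
  Tendsto (fun K : ℕ => ∑ m ∈ Icc 1 (MK y K), cK k y K m ^ 2) atTop (𝓝 (AA k y))

/-- VARL (30 min, Deps: MUL, VAR1, JME, TP, CV, SUMC). VAR1 for `c = cK`, and `K → ∞` (uniform convergence of the integrands in
`(θ,t)`, so the left sides converge). -/
def S_VARL : Prop := ∀ (k : ℝ) (y : ℕ) (T B : ℝ), 0 < k → 0 < T → (∀ K : ℕ, QS (cK k y K) (MK y K) ≤ B) →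
  ∫ θ, (JE θ k y T - AA k y) ^ 2 ∂P ≤ 2 / T * B

/-- SUB (25 min, no Deps). On prime powers: for `κ ≥ 1`, `lc κ (a+b) ≤ lc κ a · lc κ b` because
`(κ+a+i)/(a+i+1) ≤ (κ+i)/(i+1)`; general `a, b` prime by prime. Monotone in `κ`: `lc_mono`. -/
def S_SUB : Prop := (∀ (κ : ℝ) (a b : ℕ), 1 ≤ κ → 1 ≤ a → 1 ≤ b → dv κ (a * b) ≤ dv κ a * dv κ b) ∧
  ∀ (k κ : ℝ) (n : ℕ), 0 < k → k ≤ κ → 0 ≤ dv k n ∧ dv k n ≤ dv κ n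

/-- QR (35 min, Deps: SUB). As package QUAD of RT (file RT/QUAD.lean): `(m,n,m',n') ↦ (g,g',(r,s))`, all of them
divisors of `MK`; `dv k (g r) ≤ dv κ (g r) ≤ dv κ g · dv κ r` with `κ ≥ 1`, `κ ≥ k`. -/
def S_QR : Prop := ∀ (k κ : ℝ) (y K : ℕ), 0 < k → k ≤ κ → 1 ≤ κ →
  QS (cK k y K) (MK y K) ≤ (∑ g ∈ (MK y K).divisors, dv κ g ^ 2 / g) ^ 2 *
    ∑ q ∈ ((MK y K).divisors ×ˢ (MK y K).divisors).filter (fun q => q.1 ≠ q.2),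
      dv κ q.1 ^ 2 * dv κ q.2 ^ 2 / ((q.1 : ℝ) * q.2 * |Real.log q.1 - Real.log q.2|)

/-- WB (35 min, no Deps; any `w ≥ 0`, any finite set `U` of positive integers). Pairs with `r ≥ 2s` or `s ≥ 2r`:
`|log r - log s| ≥ log 2`, giving `(1/log 2) (∑ w/r)² ≤ 2 (∑ w/r)²`. Pairs with `s < r < 2s` (and symmetric): `log r - log s ≥ (r-s)/r`
so the term is `≤ w(r) w(s)/(s (r-s)) ≤ (w(r)² + w(s)²)/(2 s (r-s))`, and `∑_{h<s} 1/h ≤ 1 + log s`,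
`s ≥ r/2`. -/
def S_WB : Prop := ∀ (w : ℕ → ℝ) (U : Finset ℕ), (∀ n, 0 ≤ w n) → (∀ n ∈ U, 1 ≤ n) →
  ∑ q ∈ (U ×ˢ U).filter (fun q => q.1 ≠ q.2), w q.1 * w q.2 / ((q.1 : ℝ) * q.2 * |Real.log q.1 - Real.log q.2|) ≤
    2 * (∑ r ∈ U, w r / r) ^ 2 + 4 * ∑ r ∈ U, w r ^ 2 * (1 + Real.log r) / r

/-- RK (45 min, no Deps). Rankin: with `σ = min(1/4, 1/log y)`, `1 + log r ≤ C (1 + log y) r^σ`, and the sum of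
`dv κ (r)^a r^{σ-1}` over the divisors of `MK` is `∏_{p ≤ y} ∑_{m ≤ K} lc(κ,m)^a p^{-m(1-σ)}`
`≤ ∏ (1 + C/p) ≤ exp(C ∑_{p≤y} 1/p) ≤ C' (log y)^C` (`p^σ ≤ e`, `p^{-(1-σ)} ≤ 2^{-3/4}`; `∑_{p≤y} 1/p ≤ log log y + C`:
from `mertens_three`). -/
def S_RK : Prop := ∀ (κ : ℝ) (a : ℕ), 1 ≤ κ → ∃ C : ℝ, 0 < C ∧ ∀ y K : ℕ, 3 ≤ y →
  ∑ r ∈ (MK y K).divisors, dv κ r ^ a * (1 + Real.log r) / r ≤ C * Real.log y ^ C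

/-- QSE (20 min, Deps: QR, WB, RK, SUB). Combine with `κ = max k 1`, `w = dv κ ^ 2` (`1 ≤ 1 + log r`, `log y ≥ 1`). -/
def S_QSE : Prop := ∀ k : ℝ, 0 < k → ∃ C : ℝ, 0 < C ∧ ∀ y K : ℕ, 3 ≤ y → QS (cK k y K) (MK y K) ≤ C * Real.log y ^ C

/-- AAL (20 min, no Deps). Each factor is `≥ 1` (the term `m = 0`) and `≤ exp(C/p)`. -/
def S_AAL : Prop := ∀ k : ℝ, 0 < k → (∀ y : ℕ, 1 ≤ AA k y) ∧ Monotone (AA k) ∧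
  ∃ C : ℝ, 0 < C ∧ ∀ y z : ℕ, y ≤ z → AA k z ≤ AA k y * Real.exp (C * ∑ n ∈ Ioc y z, 1 / (n : ℝ))

/-- the grid `⌊i^{2-η/2}⌋` -/
noncomputable def gr (η : ℝ) (i : ℕ) : ℕ := ⌊(i : ℝ) ^ (2 - η / 2)⌋₊

/-- GRE (40 min, Deps: VARL, QSE, JME, AAL; RT.AE). As RT/GRD.lean. `a = ⌈16/η⌉`, `X_{ji} = JE(gr i, j^a) - AA(gr i)`; with
`R = ((j+1)^a)^{2-η}` the number of `i` with `gr i ≤ R` is `≤ (R+1)^{1/(2-η/2)} ≤ C (j^a)^{1-η/4}`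
(`(2-η) ≤ (2-η/2)(1-η/4)`), the variance is `≤ C (log R)^C / j^a ≤ C' (j^a)^{-1+η/8}`. -/
def S_GRE : Prop := ∀ (k η : ℝ), 0 < k → 0 < η → η ≤ 1 → ∃ a : ℕ, 1 ≤ a ∧ ∀ᵐ θ ∂P,
  ∀ ε : ℝ, 0 < ε → ∀ᶠ j : ℕ in atTop, ∀ i : ℕ, 3 ≤ gr η i → (gr η i : ℝ) ≤ (((j : ℝ) + 1) ^ a) ^ (2 - η) →
    |JE θ k (gr η i) ((j : ℝ) ^ a) - AA k (gr η i)| ≤ ε

/-- INTTE (30 min, Deps: AAL, JME). As RT/INTT.lean: `T · JE(T)` is nondecreasing. -/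
def S_INTTE : Prop := ∀ (θ : ℕ → ℝ) (k η : ℝ) (a : ℕ), 0 < k → 1 ≤ a → 0 < η → η ≤ 1 →
  (∀ ε : ℝ, 0 < ε → ∀ᶠ j : ℕ in atTop, ∀ i : ℕ, 3 ≤ gr η i → (gr η i : ℝ) ≤ (((j : ℝ) + 1) ^ a) ^ (2 - η) →
    |JE θ k (gr η i) ((j : ℝ) ^ a) - AA k (gr η i)| ≤ ε) →
  ∀ ε : ℝ, 0 < ε → ∃ T₀ : ℝ, 1 ≤ T₀ ∧ ∀ T : ℝ, T₀ ≤ T → ∀ i : ℕ, 3 ≤ gr η i → (gr η i : ℝ) ≤ T ^ (2 - η) →
    |JE θ k (gr η i) T - AA k (gr η i)| ≤ ε * AA k (gr η i)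

/-- STEP (35 min, Deps: MUL). For `gr i ≤ y < gr (i+1)`: `|EU_y|^{2k}/|EU_{gr i}|^{2k} = ∏_{gr i < p ≤ y} |1 - zp|^{-2k}` lies
between `exp(∓ C ∑ p^{-1/2})`, and the interval `(gr i, gr(i+1)]` has `≤ C i^{1-η/2}` integers, each with
`n^{-1/2} ≤ C i^{-1+η/4}`; so the sum is `≤ C i^{-η/4} → 0`. Also `∑ 1/n → 0`. -/
def S_STEP : Prop := ∀ (k η : ℝ), 0 < k → 0 < η → η ≤ 1 → ∀ δ : ℝ, 0 < δ → ∃ i₀ : ℕ, ∀ i : ℕ, i₀ ≤ i → ∀ y : ℕ,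
  gr η i ≤ y → y < gr η (i + 1) →
  (∀ (θ : ℕ → ℝ) (t : ℝ), ‖EU θ y t‖ ^ (2 * k) ≤ (1 + δ) * ‖EU θ (gr η i) t‖ ^ (2 * k) ∧
    ‖EU θ (gr η i) t‖ ^ (2 * k) ≤ (1 + δ) * ‖EU θ y t‖ ^ (2 * k)) ∧
  ∑ n ∈ Ioc (gr η i) y, 1 / (n : ℝ) ≤ δ

/-- INTNE (30 min, Deps: STEP, AAL, JME). From the grid to all `y`: integrate STEP; `AA(y)/AA(gr i) → 1` by AAL, STEP. For
`y ≥ 3` large choose `i` with `gr i ≤ y < gr (i+1)` (`gr` is nondecreasing, tends to `∞`, `gr 1 = 1`). -/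
def S_INTNE : Prop := ∀ (θ : ℕ → ℝ) (k η : ℝ), 0 < k → 0 < η → η ≤ 1 →
  (∀ ε : ℝ, 0 < ε → ∃ T₀ : ℝ, 1 ≤ T₀ ∧ ∀ T : ℝ, T₀ ≤ T → ∀ i : ℕ, 3 ≤ gr η i → (gr η i : ℝ) ≤ T ^ (2 - η) →
    |JE θ k (gr η i) T - AA k (gr η i)| ≤ ε * AA k (gr η i)) →
  ∀ ε : ℝ, 0 < ε → ∃ (y₀ : ℕ) (T₀ : ℝ), 1 ≤ T₀ ∧ ∀ (T : ℝ) (y : ℕ), T₀ ≤ T → y₀ ≤ y → (y : ℝ) ≤ T ^ (2 - η) →
    |JE θ k y T - AA k y| ≤ ε * AA k y

/-- MER (30 min, no Deps). `AA = ∏_{p≤y} [(1-1/p)^{k²} ∑ lc² p^{-m}] · (∏_{p≤y} (1-1/p)⁻¹)^{k²}`; `aF_multipliable`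
(partial products over the primes `≤ y`), `mertens_three`. -/
def S_MER : Prop := ∀ k : ℝ, 0 < k → Tendsto (fun y : ℕ => AA k y / Real.log y ^ (k ^ 2)) atTop
  (𝓝 (aF k * Real.exp (Real.eulerMascheroniConstant * k ^ 2)))

/-- FINE (30 min, Deps: GRE, INTTE, INTNE, MER, AAL, JME). `(1/T) ∫_T^{2T} = 2 JE(2T) - JE(T)`; all `η = 1/n`, hence all `η > 0`. -/
def S_FINE : Prop := ∀ k : ℝ, 0 < k → ∀ᵐ θ ∂P, ∀ η : ℝ, 0 < η → ∀ ε : ℝ, 0 < ε →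
  ∃ (y₀ : ℕ) (T₀ : ℝ), ∀ (T : ℝ) (y : ℕ), T₀ ≤ T → y₀ ≤ y → (y : ℝ) ≤ T ^ (2 - η) →
    |1 / T * (∫ t in T..(2 * T), ‖EU θ y t‖ ^ (2 * k)) -
        aF k * Real.exp (Real.eulerMascheroniConstant * k ^ 2) * Real.log y ^ (k ^ 2)| ≤ ε * Real.log y ^ (k ^ 2)

end Pool.Agent.T2H98.EP
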